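import Mathlib

set_option autoImplicit false

namespace Pool.Agent.MeasTri

open Complex

/-- `Avoid f a b c`: no three points of one colour have pairwise distances `a`, `b`, `c`. -/
def Avoid (f : ℂ → Bool) (a b c : ℝ) : Prop :=
  ∀ P Q R : ℂ, ‖P - Q‖ = a → ‖Q - R‖ = b → ‖P - R‖ = c → ¬ (f P = f Q ∧ f Q = f R)

lemma Avoid.swap12 {f : ℂ → Bool} {a b c : ℝ} (h : Avoid f a b c) : Avoid f b a c := by
  intro P Q R h1 h2 h3 h4
  refine h R Q P ?_ ?_ ?_ ⟨h4.2.symm, h4.1.symm⟩
  · rw [norm_sub_rev]; exact h2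
  · rw [norm_sub_rev]; exact h1
  · rw [norm_sub_rev]; exact h3

lemma Avoid.rot {f : ℂ → Bool} {a b c : ℝ} (h : Avoid f a b c) : Avoid f b c a := by
  intro P Q R h1 h2 h3 h4
  refine h R P Q ?_ ?_ ?_ ⟨(h4.1.trans h4.2).symm, h4.1⟩
  · rw [norm_sub_rev]; exact h3
  · exact h1
  · rw [norm_sub_rev]; exact h2

/-- the primitive sixth root of unity `e^{iπ/3}` -/
noncomputable def zt : ℂ := ⟨1 / 2, Real.sqrt 3 / 2⟩

lemma zt_sq : zt ^ 2 = zt - 1 := by
  have h3 : Real.sqrt 3 * Real.sqrt 3 = 3 := Real.mul_self_sqrt (by norm_num)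
  apply Complex.ext
  · simp [zt, pow_two]; nlinarith
  · simp [zt, pow_two]; nlinarith

lemma norm_zt : ‖zt‖ = 1 := by
  have h3 : Real.sqrt 3 * Real.sqrt 3 = 3 := Real.mul_self_sqrt (by norm_num)
  rw [← sq_eq_sq₀ (norm_nonneg _) (by norm_num), ← Complex.normSq_eq_norm_sq, Complex.normSq_apply]
  simp [zt]; nlinarith

lemma norm_zt_sub_one : ‖zt - 1‖ = 1 := by
  rw [← zt_sq, norm_pow, norm_zt]; norm_num

/-- Direction 1: a mono equilateral triangle of side `‖A‖` forces a mono copy of `{0, A, W}`. -/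
lemma no_eq_aux {f : ℂ → Bool} {A W : ℂ} (h : Avoid f ‖A‖ ‖A - W‖ ‖W‖) (P : ℂ)
    (h1 : f P = f (P + A)) (h2 : f P = f (P + zt * A)) : False := by
  have key : ∀ X Y Z u : ℂ, ‖u‖ = 1 → Y - X = u * A → Z - X = u * W →
      ¬ (f X = f Y ∧ f Y = f Z) := by
    intro X Y Z u hu hY hZ
    refine h X Y Z ?_ ?_ ?_
    · rw [norm_sub_rev, hY, norm_mul, hu, one_mul]
    · have : Y - Z = u * (A - W) := by linear_combination hY - hZ
      rw [this, norm_mul, hu, one_mul]
    · rw [norm_sub_rev, hZ, norm_mul, hu, one_mul]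
  have hz := zt_sq
  have n1 : ‖(1 : ℂ)‖ = 1 := by norm_num
  have nz := norm_zt
  have nm1 : ‖(-1 : ℂ)‖ = 1 := by norm_num
  have nmz : ‖-zt‖ = 1 := by rw [norm_neg, nz]
  have nz1 : ‖zt - 1‖ = 1 := norm_zt_sub_one
  have n1z : ‖1 - zt‖ = 1 := by rw [norm_sub_rev, nz1]
  -- the six copies
  have t1 := key P (P + A) (P + W) 1 n1 (by ring) (by ring)
  have t2 := key P (P + zt * A) (P + zt * W) zt nz (by ring) (by ring)
  have t3 := key (P + A + zt * W) (P + (1 - zt) * A + zt * W) (P + A) (-zt) nmz (by ring) (by ring)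
  have t4 := key (P + zt * W) (P + (1 - zt) * A + zt * W) (P + W) (1 - zt) n1z (by ring) (by ring)
  have t5 := key (P + A) (P + zt * A) (P + A + (zt - 1) * W) (zt - 1) nz1 (by ring) (by ring)
  have t6 := key (P + A + zt * W) (P + zt * W) (P + A + (zt - 1) * W) (-1) nm1 (by ring) (by ring)
  revert t1 t2 t3 t4 t5 t6 h1 h2
  generalize f P = x0
  generalize f (P + A) = x1
  generalize f (P + zt * A) = x2
  generalize f (P + W) = x3
  generalize f (P + zt * W) = x4
  generalize f (P + A + zt * W) = x5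
  generalize f (P + (1 - zt) * A + zt * W) = x6
  generalize f (P + A + (zt - 1) * W) = x7
  revert x0 x1 x2 x3 x4 x5 x6 x7
  decide

/-- Direction 2: a mono copy of `{0, A, W}` forces a mono equilateral triangle of side
`‖A‖`, `‖W‖` or `‖A - W‖`. -/
lemma no_tri_aux {f : ℂ → Bool} {A W : ℂ} (hA : Avoid f ‖A‖ ‖A‖ ‖A‖) (hW : Avoid f ‖W‖ ‖W‖ ‖W‖)
    (hC : Avoid f ‖A - W‖ ‖A - W‖ ‖A - W‖) (P : ℂ)
    (h1 : f P = f (P + A)) (h2 : f P = f (P + W)) : False := by
  have nz := norm_zt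
  have nz1 : ‖zt - 1‖ = 1 := norm_zt_sub_one
  have key : ∀ V : ℂ, Avoid f ‖V‖ ‖V‖ ‖V‖ → ∀ X Y Z u : ℂ, ‖u‖ = 1 → Y - X = u * V →
      Z - X = zt * (u * V) → ¬ (f X = f Y ∧ f Y = f Z) := by
    intro V hV X Y Z u hu hY hZ
    refine hV X Y Z ?_ ?_ ?_
    · rw [norm_sub_rev, hY, norm_mul, hu, one_mul]
    · have : Z - Y = (zt - 1) * (u * V) := by linear_combination hZ - hY
      rw [norm_sub_rev, this, norm_mul, nz1, norm_mul, hu]; ring
    · rw [norm_sub_rev, hZ, norm_mul, nz, norm_mul, hu]; ring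
  have hz := zt_sq
  have n1 : ‖(1 : ℂ)‖ = 1 := by norm_num
  have nm1 : ‖(-1 : ℂ)‖ = 1 := by norm_num
  have nmz : ‖-zt‖ = 1 := by rw [norm_neg, nz]
  have n1z : ‖1 - zt‖ = 1 := by rw [norm_sub_rev, nz1]
  -- side A
  have t1 := key A hA (P + zt * (W - A)) (P + A + zt * (W - A)) (P + zt * W) 1 n1 (by ring)
    (by ring)
  have t3 := key A hA P (P + (1 - zt) * A) (P + A) (1 - zt) n1z (by ring)
    (by linear_combination A * hz)
  -- side W
  have t4 := key W hW P (P + W) (P + zt * W) 1 n1 (by ring) (by ring)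
  have t5 := key W hW (P + (1 - zt) * A) (P + (1 - zt) * A + zt * W)
    (P + (1 - zt) * A + (zt - 1) * W) zt nz (by ring) (by linear_combination (-W) * hz)
  -- side A - W
  have t2 := key (A - W) hC (P + A) (P + W) (P + A + zt * (W - A)) (-1) nm1 (by ring) (by ring)
  have t6 := key (A - W) hC P (P + zt * (W - A)) (P + (zt - 1) * (W - A)) (-zt) nmz (by ring)
    (by linear_combination (A - W) * hz)
  have e1 : P + (1 - zt) * A + zt * W = P + A + zt * (W - A) := by ring
  have e2 : P + (1 - zt) * A + (zt - 1) * W = P + (zt - 1) * (W - A) := by ring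
  rw [e1, e2] at t5
  revert t1 t2 t3 t4 t5 t6 h1 h2
  generalize f P = x0
  generalize f (P + A) = x1
  generalize f (P + W) = x2
  generalize f (P + A + zt * (W - A)) = x3
  generalize f (P + (1 - zt) * A) = x4
  generalize f (P + zt * W) = x5
  generalize f (P + zt * (W - A)) = x6
  generalize f (P + (zt - 1) * (W - A)) = x7
  revert x0 x1 x2 x3 x4 x5 x6 x7
  decide

/-- shape of an equilateral triple -/
lemma eq_shape {U V : ℂ} (h1 : ‖U‖ = ‖V‖) (h2 : ‖U - V‖ = ‖U‖) :
    V = zt * U ∨ U = zt * V := by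
  have h3 : Real.sqrt 3 * Real.sqrt 3 = 3 := Real.mul_self_sqrt (by norm_num)
  rcases eq_or_ne U 0 with h0 | h0
  · left
    have : ‖V‖ = 0 := by rw [← h1, h0, norm_zero]
    rw [h0, mul_zero]; exact norm_eq_zero.1 this
  have hU : 0 < ‖U‖ := norm_pos_iff.2 h0
  -- set w = V / U
  set w : ℂ := V / U with hw
  have hV : V = w * U := by rw [hw]; field_simp
  have nw : ‖w‖ = 1 := by
    rw [hw, norm_div, ← h1]; field_simp
  have nw1 : ‖1 - w‖ = 1 := by
    have : U - V = (1 - w) * U := by rw [hV]; ring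
    rw [this, norm_mul] at h2
    field_simp at h2
    exact h2
  have a1 : w.re * w.re + w.im * w.im = 1 := by
    have := Complex.normSq_apply w
    rw [Complex.normSq_eq_norm_sq, nw] at this; linarith
  have a2 : (1 - w.re) * (1 - w.re) + w.im * w.im = 1 := by
    have := Complex.normSq_apply (1 - w)
    rw [Complex.normSq_eq_norm_sq, nw1] at this
    simp at this; linarith
  have hre : w.re = 1 / 2 := by nlinarith
  have him : (w.im - Real.sqrt 3 / 2) * (w.im + Real.sqrt 3 / 2) = 0 := by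
    rw [hre] at a1; nlinarith
  rcases mul_eq_zero.1 him with h | h
  · left
    rw [hV]
    congr 1
    apply Complex.ext
    · simp [zt, hre]
    · simp [zt]; linarith
  · right
    have hwz : zt * w = 1 := by
      have hw' : w = ⟨1 / 2, -(Real.sqrt 3 / 2)⟩ := by
        apply Complex.ext
        · simp [hre]
        · simp; linarith
      rw [hw']
      apply Complex.ext
      · simp [zt]; nlinarith
      · simp [zt]; ring
    rw [hV]
    linear_combination (-U) * hwz

/-- If `f` avoids the triangle `{0, A, W}` then it avoids equilateral triangles of side `‖A‖`. -/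
lemma avoid_eq_of_avoid {f : ℂ → Bool} {A W : ℂ} (hA0 : A ≠ 0)
    (h : Avoid f ‖A‖ ‖A - W‖ ‖W‖) : Avoid f ‖A‖ ‖A‖ ‖A‖ := by
  intro P Q R h1 h2 h3 h4
  -- a general fact: for any `U` of norm `‖A‖` and any `P`, not (P, P+U, P+zt U) mono
  have main : ∀ P U : ℂ, ‖U‖ = ‖A‖ → f P = f (P + U) → f P = f (P + zt * U) → False := by
    intro P U hU e1 e2
    set t : ℂ := U / A with ht
    have hUt : U = t * A := by rw [ht]; field_simp
    have nt : ‖t‖ = 1 := by
      rw [ht, norm_div, hU]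
      exact div_self (norm_ne_zero_iff.2 hA0)
    have hUA : ‖t * A‖ = ‖A‖ := by rw [norm_mul, nt, one_mul]
    have hUW : ‖t * W‖ = ‖W‖ := by rw [norm_mul, nt, one_mul]
    have hUC : ‖t * A - t * W‖ = ‖A - W‖ := by rw [← mul_sub, norm_mul, nt, one_mul]
    refine no_eq_aux (f := f) (A := t * A) (W := t * W) ?_ P (by rw [← hUt]; exact e1)
      (by rw [← hUt]; exact e2)
    rw [hUA, hUW, hUC]; exact h
  rcases eq_shape (U := Q - P) (V := R - P) (by rw [norm_sub_rev, h1, norm_sub_rev, h3])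
    (by rw [show Q - P - (R - P) = Q - R by ring, h2, norm_sub_rev, h1]) with hh | hh
  · refine main P (Q - P) (by rw [norm_sub_rev, h1]) (by rw [add_sub_cancel]; exact h4.1) ?_
    rw [← hh, add_sub_cancel]; exact h4.1.trans h4.2
  · refine main P (R - P) (by rw [norm_sub_rev, h3])
      (by rw [add_sub_cancel]; exact h4.1.trans h4.2) ?_
    rw [← hh, add_sub_cancel]; exact h4.1

/-- If `f` avoids equilateral triangles of sides `a`, `b`, `c`, it avoids `(a, b, c)`. -/
lemma avoid_of_avoid_eq {f : ℂ → Bool} {a b c : ℝ} (ha : Avoid f a a a) (hb : Avoid f b b b)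
    (hc : Avoid f c c c) : Avoid f a b c := by
  intro P Q R h1 h2 h3 h4
  refine no_tri_aux (f := f) (A := Q - P) (W := R - P) ?_ ?_ ?_ P ?_ ?_
  · rw [norm_sub_rev, h1]; exact ha
  · rw [norm_sub_rev, h3]; exact hc
  · rw [show Q - P - (R - P) = Q - R by ring, h2]; exact hb
  · rw [add_sub_cancel]; exact h4.1
  · rw [add_sub_cancel]; exact h4.1.trans h4.2

end Pool.Agent.MeasTri
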