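import Mathlib

set_option autoImplicit false

namespace Pool.Agent.MeasTri

open MeasureTheory Filter Topology Set intervalIntegral
open scoped Real

/-! ### Taylor bounds for cosine and sine -/

/-- Taylor partial sums of cosine -/
noncomputable def cosT (m : ℕ) (x : ℝ) : ℝ :=
  ∑ k ∈ Finset.range m, (-1 : ℝ) ^ k * x ^ (2 * k) / (2 * k).factorial

/-- Taylor partial sums of sine -/
noncomputable def sinT (m : ℕ) (x : ℝ) : ℝ :=
  ∑ k ∈ Finset.range m, (-1 : ℝ) ^ k * x ^ (2 * k + 1) / (2 * k + 1).factorial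

lemma hasDerivAt_sinT (m : ℕ) (x : ℝ) : HasDerivAt (sinT m) (cosT m x) x := by
  unfold sinT cosT
  refine HasDerivAt.fun_sum fun k _ => ?_
  have h := ((hasDerivAt_pow (2 * k + 1) x).const_mul ((-1 : ℝ) ^ k)).div_const
    ((2 * k + 1).factorial : ℝ)
  refine h.congr_deriv ?_
  rw [Nat.factorial_succ]
  have : ((2 * k).factorial : ℝ) ≠ 0 := by positivity
  push_cast
  field_simp

lemma hasDerivAt_cosT (m : ℕ) (x : ℝ) : HasDerivAt (cosT (m + 1)) (-(sinT m x)) x := by
  have h0 : ∀ x, cosT (m + 1) x = 1 + ∑ k ∈ Finset.range m,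
      (-1 : ℝ) ^ (k + 1) * x ^ (2 * (k + 1)) / (2 * (k + 1)).factorial := by
    intro x
    unfold cosT
    rw [Finset.sum_range_succ', add_comm]
    simp
  have h1 : cosT (m + 1) = fun x => 1 + ∑ k ∈ Finset.range m,
      (-1 : ℝ) ^ (k + 1) * x ^ (2 * (k + 1)) / (2 * (k + 1)).factorial := funext h0
  rw [h1]
  have h2 : HasDerivAt (fun x : ℝ => ∑ k ∈ Finset.range m,
      (-1 : ℝ) ^ (k + 1) * x ^ (2 * (k + 1)) / (2 * (k + 1)).factorial) (-(sinT m x)) x := by
    unfold sinT
    rw [← Finset.sum_neg_distrib]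
    refine HasDerivAt.fun_sum fun k _ => ?_
    have h := ((hasDerivAt_pow (2 * (k + 1)) x).const_mul ((-1 : ℝ) ^ (k + 1))).div_const
      ((2 * (k + 1)).factorial : ℝ)
    refine h.congr_deriv ?_
    rw [show 2 * (k + 1) = (2 * k + 1) + 1 by ring, Nat.factorial_succ]
    have : ((2 * k + 1).factorial : ℝ) ≠ 0 := by positivity
    push_cast
    field_simp
    ring
  exact (h2.const_add 1)

lemma nonneg_of_deriv_nonneg {f f' : ℝ → ℝ} (hf : ∀ x, HasDerivAt f (f' x) x)
    (h0 : f 0 = 0) (h : ∀ x, 0 ≤ x → 0 ≤ f' x) {x : ℝ} (hx : 0 ≤ x) : 0 ≤ f x := by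
  have hm : MonotoneOn f (Ici 0) := by
    refine monotoneOn_of_deriv_nonneg (convex_Ici 0)
      (fun y _ => (hf y).continuousAt.continuousWithinAt)
      (fun y _ => (hf y).differentiableAt.differentiableWithinAt) ?_
    intro y hy
    rw [interior_Ici] at hy
    rw [(hf y).deriv]
    exact h y (le_of_lt hy)
  have := hm (mem_Ici.2 le_rfl) (mem_Ici.2 hx) hx
  rwa [h0] at this

lemma taylor_bounds (m : ℕ) : ∀ x : ℝ, 0 ≤ x →
    0 ≤ (-1 : ℝ) ^ (m + 1) * (Real.cos x - cosT (m + 1) x) ∧
    0 ≤ (-1 : ℝ) ^ (m + 1) * (Real.sin x - sinT (m + 1) x) := by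
  induction m with
  | zero =>
    intro x hx
    simp only [cosT, sinT]
    norm_num
    exact ⟨Real.cos_le_one x, Real.sin_le hx⟩
  | succ m ih =>
    have hc : ∀ x : ℝ, 0 ≤ x → 0 ≤ (-1 : ℝ) ^ (m + 2) * (Real.cos x - cosT (m + 2) x) := by
      intro x hx
      refine nonneg_of_deriv_nonneg (f := fun x => (-1 : ℝ) ^ (m + 2) * (Real.cos x - cosT (m + 2) x))
        (f' := fun x => (-1 : ℝ) ^ (m + 2) * (-Real.sin x - -(sinT (m + 1) x))) ?_ ?_ ?_ hx
      · intro y
        exact ((Real.hasDerivAt_cos y).sub (hasDerivAt_cosT (m + 1) y)).const_mul _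
      · simp only [cosT]
        rw [Finset.sum_range_succ']
        simp
      · intro y hy
        have := (ih y hy).2
        have e : (-1 : ℝ) ^ (m + 2) * (-Real.sin y - -(sinT (m + 1) y)) =
          (-1 : ℝ) ^ (m + 1) * (Real.sin y - sinT (m + 1) y) := by ring
        rw [e]; exact this
    intro x hx
    refine ⟨hc x hx, ?_⟩
    refine nonneg_of_deriv_nonneg (f := fun x => (-1 : ℝ) ^ (m + 2) * (Real.sin x - sinT (m + 2) x))
        (f' := fun x => (-1 : ℝ) ^ (m + 2) * (Real.cos x - cosT (m + 2) x)) ?_ ?_ ?_ hx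
    · intro y
      exact ((Real.hasDerivAt_sin y).sub (hasDerivAt_sinT (m + 2) y)).const_mul _
    · simp [sinT]
    · intro y hy
      exact hc y hy

/-! ### The Bessel functions of order zero and one -/

/-- the Bessel function `J₀` -/
noncomputable def J0 (t : ℝ) : ℝ := (1 / π) * ∫ u in (0 : ℝ)..π, Real.cos (t * Real.sin u)

/-- the Bessel function `J₁` -/
noncomputable def J1 (t : ℝ) : ℝ :=
  (1 / π) * ∫ u in (0 : ℝ)..π, Real.sin u * Real.sin (t * Real.sin u)

lemma hasDerivAt_J0 (t : ℝ) : HasDerivAt J0 (-(J1 t)) t := by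
  have h := intervalIntegral.hasDerivAt_integral_of_dominated_loc_of_deriv_le
    (F := fun t u => Real.cos (t * Real.sin u))
    (F' := fun t u => -(Real.sin u * Real.sin (t * Real.sin u)))
    (x₀ := t) (s := univ) (μ := volume) (a := 0) (b := π) (bound := fun _ => (1 : ℝ))
    univ_mem
    (Eventually.of_forall fun x => by
      exact (by fun_prop : Continuous fun u => Real.cos (x * Real.sin u)).aestronglyMeasurable)
    ((by fun_prop : Continuous fun u => Real.cos (t * Real.sin u)).intervalIntegrable _ _)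
    ((by fun_prop : Continuous fun u => -(Real.sin u * Real.sin (t * Real.sin u))).aestronglyMeasurable)
    (Eventually.of_forall fun u _ x _ => by
      rw [norm_neg, norm_mul]
      exact mul_le_one₀ (Real.abs_sin_le_one _) (norm_nonneg _) (Real.abs_sin_le_one _))
    (intervalIntegrable_const)
    (Eventually.of_forall fun u _ x _ => by
      have h1 : HasDerivAt (fun x : ℝ => x * Real.sin u) (Real.sin u) x := by
        simpa using (hasDerivAt_id x).mul_const (Real.sin u)
      have h2 := h1.cos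
      refine h2.congr_deriv ?_
      ring)
  have h3 := h.2.const_mul (1 / π)
  have : (1 / π) * ∫ u in (0 : ℝ)..π, -(Real.sin u * Real.sin (t * Real.sin u)) = -(J1 t) := by
    rw [intervalIntegral.integral_neg]; unfold J1; ring
  rw [this] at h3
  exact h3

lemma J1_ode (t : ℝ) : t * ((1 / π) * ∫ u in (0 : ℝ)..π, Real.sin u ^ 2 * Real.cos (t * Real.sin u))
    = t * J0 t - J1 t := by
  have hFTC : ∫ u in (0 : ℝ)..π, (-(Real.sin u) * Real.sin (t * Real.sin u) +
      Real.cos u * (Real.cos (t * Real.sin u) * (t * Real.cos u))) =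
      Real.cos π * Real.sin (t * Real.sin π) - Real.cos 0 * Real.sin (t * Real.sin 0) := by
    refine intervalIntegral.integral_eq_sub_of_hasDerivAt
      (f := fun u => Real.cos u * Real.sin (t * Real.sin u)) ?_ ?_
    · intro u _
      have h1 : HasDerivAt (fun u : ℝ => t * Real.sin u) (t * Real.cos u) u :=
        (Real.hasDerivAt_sin u).const_mul t
      exact (Real.hasDerivAt_cos u).mul h1.sin
    · exact (by fun_prop : Continuous fun u => (-(Real.sin u) * Real.sin (t * Real.sin u) +
        Real.cos u * (Real.cos (t * Real.sin u) * (t * Real.cos u)))).intervalIntegrable _ _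
  simp only [Real.sin_pi, Real.sin_zero, mul_zero, sub_zero] at hFTC
  have hi1 : IntervalIntegrable (fun u => Real.sin u ^ 2 * Real.cos (t * Real.sin u)) volume 0 π :=
    (by fun_prop : Continuous fun u => Real.sin u ^ 2 * Real.cos (t * Real.sin u)).intervalIntegrable _ _
  have hi2 : IntervalIntegrable (fun u => Real.cos (t * Real.sin u)) volume 0 π :=
    (by fun_prop : Continuous fun u => Real.cos (t * Real.sin u)).intervalIntegrable _ _
  have hi3 : IntervalIntegrable (fun u => Real.sin u * Real.sin (t * Real.sin u)) volume 0 π :=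
    (by fun_prop : Continuous fun u => Real.sin u * Real.sin (t * Real.sin u)).intervalIntegrable _ _
  have e : (fun u => (-(Real.sin u) * Real.sin (t * Real.sin u) +
      Real.cos u * (Real.cos (t * Real.sin u) * (t * Real.cos u)))) =
      fun u => (t * Real.cos (t * Real.sin u) - Real.sin u * Real.sin (t * Real.sin u)) -
        t * (Real.sin u ^ 2 * Real.cos (t * Real.sin u)) := by
    ext u
    have := Real.sin_sq_add_cos_sq u
    have h : Real.cos u ^ 2 = 1 - Real.sin u ^ 2 := by linarith
    linear_combination (t * Real.cos (t * Real.sin u)) * h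
  rw [e, intervalIntegral.integral_sub ((hi2.const_mul t).sub hi3) (hi1.const_mul t),
    intervalIntegral.integral_sub (hi2.const_mul t) hi3, intervalIntegral.integral_const_mul,
    intervalIntegral.integral_const_mul] at hFTC
  unfold J0 J1
  linear_combination (-(1 / π)) * hFTC

lemma hasDerivAt_J1 {t : ℝ} (ht : 0 < t) : HasDerivAt J1 (J0 t - J1 t / t) t := by
  have h := intervalIntegral.hasDerivAt_integral_of_dominated_loc_of_deriv_le
    (F := fun t u => Real.sin u * Real.sin (t * Real.sin u))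
    (F' := fun t u => Real.sin u ^ 2 * Real.cos (t * Real.sin u))
    (x₀ := t) (s := univ) (μ := volume) (a := 0) (b := π) (bound := fun _ => (1 : ℝ))
    univ_mem
    (Eventually.of_forall fun x => by
      exact (by fun_prop : Continuous fun u => Real.sin u * Real.sin (x * Real.sin u)).aestronglyMeasurable)
    ((by fun_prop : Continuous fun u => Real.sin u * Real.sin (t * Real.sin u)).intervalIntegrable _ _)
    ((by fun_prop : Continuous fun u => Real.sin u ^ 2 * Real.cos (t * Real.sin u)).aestronglyMeasurable)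
    (Eventually.of_forall fun u _ x _ => by
      rw [norm_mul, norm_pow]
      exact mul_le_one₀ (pow_le_one₀ (norm_nonneg _) (Real.abs_sin_le_one _)) (norm_nonneg _)
        (Real.abs_cos_le_one _))
    (intervalIntegrable_const)
    (Eventually.of_forall fun u _ x _ => by
      have h1 : HasDerivAt (fun x : ℝ => x * Real.sin u) (Real.sin u) x := by
        simpa using (hasDerivAt_id x).mul_const (Real.sin u)
      have h2 := h1.sin.const_mul (Real.sin u)
      refine h2.congr_deriv ?_
      ring)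
  have h3 := h.2.const_mul (1 / π)
  have e : (1 / π) * ∫ u in (0 : ℝ)..π, Real.sin u ^ 2 * Real.cos (t * Real.sin u) =
      J0 t - J1 t / t := by
    have := J1_ode t
    have ht' : t ≠ 0 := ht.ne'
    rw [eq_sub_iff_add_eq, eq_comm, ← sub_eq_iff_eq_add, eq_comm]
    generalize (1 / π) * ∫ u in (0 : ℝ)..π, Real.sin u ^ 2 * Real.cos (t * Real.sin u) = I at this ⊢
    field_simp
    linarith
  rw [e] at h3
  exact h3

/-- the energy `J₀² + J₁²` -/
noncomputable def En (t : ℝ) : ℝ := J0 t ^ 2 + J1 t ^ 2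

lemma hasDerivAt_En {t : ℝ} (ht : 0 < t) : HasDerivAt En (-(2 * J1 t ^ 2 / t)) t := by
  unfold En
  have h := ((hasDerivAt_J0 t).fun_pow 2).add ((hasDerivAt_J1 ht).fun_pow 2)
  refine h.congr_deriv ?_
  have ht' : t ≠ 0 := ht.ne'
  field_simp
  ring

lemma En_anti {s t : ℝ} (hs : 0 < s) (hst : s ≤ t) : En t ≤ En s := by
  have hm : AntitoneOn En (Ici s) := by
    refine antitoneOn_of_deriv_nonpos (convex_Ici s)
      (fun y hy => (hasDerivAt_En (lt_of_lt_of_le hs hy)).continuousAt.continuousWithinAt)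
      (fun y hy => ?_) ?_
    · rw [interior_Ici] at hy
      exact (hasDerivAt_En (hs.trans hy)).differentiableAt.differentiableWithinAt
    · intro y hy
      rw [interior_Ici] at hy
      rw [(hasDerivAt_En (hs.trans hy)).deriv]
      have : 0 < y := hs.trans hy
      have : 0 ≤ 2 * J1 y ^ 2 / y := by positivity
      linarith
  exact hm (mem_Ici.2 le_rfl) (mem_Ici.2 hst) hst

/-! ### Power series bounds -/

/-- partial sums of the power series of `J₀`, as a function of `s = t ^ 2 / 4` -/
noncomputable def P0 (m : ℕ) (s : ℝ) : ℝ :=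
  ∑ k ∈ Finset.range m, (-1 : ℝ) ^ k * s ^ k / ((k.factorial : ℝ) ^ 2)

/-- partial sums of the power series of `J₁ t / (t / 2)`, as a function of `s = t ^ 2 / 4` -/
noncomputable def P1 (m : ℕ) (s : ℝ) : ℝ :=
  ∑ k ∈ Finset.range m, (-1 : ℝ) ^ k * s ^ k / ((k.factorial : ℝ) * ((k + 1).factorial : ℝ))

lemma wallis (k : ℕ) : (∏ i ∈ Finset.range k, (2 * (i : ℝ) + 1) / (2 * i + 2)) =
    (2 * k).factorial / (4 ^ k * (k.factorial : ℝ) ^ 2) := by
  induction k with
  | zero => simp
  | succ k ih =>
    rw [Finset.prod_range_succ, ih, show 2 * (k + 1) = (2 * k + 1) + 1 by ring,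
      Nat.factorial_succ, Nat.factorial_succ, Nat.factorial_succ]
    have : (k.factorial : ℝ) ≠ 0 := by positivity
    push_cast
    field_simp
    ring

lemma integral_cosT (m : ℕ) (t : ℝ) :
    (1 / π) * ∫ u in (0 : ℝ)..π, cosT m (t * Real.sin u) = P0 m (t ^ 2 / 4) := by
  unfold cosT P0
  rw [intervalIntegral.integral_finsetSum]
  · rw [Finset.mul_sum]
    refine Finset.sum_congr rfl fun k _ => ?_
    have e : (fun u => (-1 : ℝ) ^ k * (t * Real.sin u) ^ (2 * k) / (2 * k).factorial) =
        fun u => ((-1 : ℝ) ^ k * t ^ (2 * k) / (2 * k).factorial) * Real.sin u ^ (2 * k) := by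
      ext u; rw [mul_pow]; ring
    rw [e, intervalIntegral.integral_const_mul, integral_sin_pow_even, wallis]
    have h1 : (k.factorial : ℝ) ≠ 0 := by positivity
    have h2 : ((2 * k).factorial : ℝ) ≠ 0 := by positivity
    have h3 : π ≠ 0 := Real.pi_ne_zero
    rw [div_pow, ← pow_mul]
    field_simp
  · intro k _
    exact (by fun_prop : Continuous fun u => (-1 : ℝ) ^ k * (t * Real.sin u) ^ (2 * k) /
      (2 * k).factorial).intervalIntegrable _ _

lemma integral_sinT (m : ℕ) (t : ℝ) :
    (1 / π) * ∫ u in (0 : ℝ)..π, Real.sin u * sinT m (t * Real.sin u) =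
      (t / 2) * P1 m (t ^ 2 / 4) := by
  unfold sinT P1
  simp only [Finset.mul_sum]
  rw [intervalIntegral.integral_finsetSum]
  · rw [Finset.mul_sum]
    refine Finset.sum_congr rfl fun k _ => ?_
    have e : (fun u => Real.sin u * ((-1 : ℝ) ^ k * (t * Real.sin u) ^ (2 * k + 1) /
        (2 * k + 1).factorial)) =
        fun u => ((-1 : ℝ) ^ k * t ^ (2 * k + 1) / (2 * k + 1).factorial) *
          Real.sin u ^ (2 * (k + 1)) := by
      ext u; rw [mul_pow]; ring
    rw [e, intervalIntegral.integral_const_mul, integral_sin_pow_even, wallis,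
      show 2 * (k + 1) = (2 * k + 1) + 1 by ring, Nat.factorial_succ (2 * k + 1),
      Nat.factorial_succ k]
    have h1 : (k.factorial : ℝ) ≠ 0 := by positivity
    have h2 : ((2 * k + 1).factorial : ℝ) ≠ 0 := by positivity
    have h3 : π ≠ 0 := Real.pi_ne_zero
    rw [div_pow, ← pow_mul]
    push_cast
    field_simp
    ring
  · intro k _
    exact (by fun_prop : Continuous fun u => Real.sin u * ((-1 : ℝ) ^ k *
      (t * Real.sin u) ^ (2 * k + 1) / (2 * k + 1).factorial)).intervalIntegrable _ _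

lemma continuous_cosT (m : ℕ) : Continuous (cosT m) := by unfold cosT; fun_prop

lemma continuous_sinT (m : ℕ) : Continuous (sinT m) := by unfold sinT; fun_prop

lemma J0_ge (m : ℕ) {t : ℝ} (ht : 0 ≤ t) : P0 (2 * m + 2) (t ^ 2 / 4) ≤ J0 t := by
  rw [← integral_cosT]
  unfold J0
  refine mul_le_mul_of_nonneg_left ?_ (by positivity)
  refine intervalIntegral.integral_mono_on Real.pi_pos.le
    (((continuous_cosT _).comp (by fun_prop)).intervalIntegrable _ _)
    ((by fun_prop : Continuous fun u => Real.cos (t * Real.sin u)).intervalIntegrable _ _) ?_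
  intro u hu
  have h := (taylor_bounds (2 * m + 1) (t * Real.sin u)
    (mul_nonneg ht (Real.sin_nonneg_of_mem_Icc hu))).1
  rw [show 2 * m + 1 + 1 = 2 * (m + 1) by ring, pow_mul] at h
  rw [show 2 * m + 2 = 2 * (m + 1) by ring]
  norm_num at h
  linarith

lemma J0_le (m : ℕ) {t : ℝ} (ht : 0 ≤ t) : J0 t ≤ P0 (2 * m + 1) (t ^ 2 / 4) := by
  rw [← integral_cosT]
  unfold J0
  refine mul_le_mul_of_nonneg_left ?_ (by positivity)
  refine intervalIntegral.integral_mono_on Real.pi_pos.le
    ((by fun_prop : Continuous fun u => Real.cos (t * Real.sin u)).intervalIntegrable _ _)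
    (((continuous_cosT _).comp (by fun_prop)).intervalIntegrable _ _) ?_
  intro u hu
  have h := (taylor_bounds (2 * m) (t * Real.sin u)
    (mul_nonneg ht (Real.sin_nonneg_of_mem_Icc hu))).1
  rw [pow_succ, pow_mul] at h
  norm_num at h
  linarith

lemma J1_ge (m : ℕ) {t : ℝ} (ht : 0 ≤ t) : (t / 2) * P1 (2 * m + 2) (t ^ 2 / 4) ≤ J1 t := by
  rw [← integral_sinT]
  unfold J1
  refine mul_le_mul_of_nonneg_left ?_ (by positivity)
  refine intervalIntegral.integral_mono_on Real.pi_pos.le
    ((Real.continuous_sin.mul ((continuous_sinT _).comp (by fun_prop))).intervalIntegrable _ _)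
    ((by fun_prop : Continuous fun u => Real.sin u * Real.sin (t * Real.sin u)).intervalIntegrable _ _) ?_
  intro u hu
  have hs := Real.sin_nonneg_of_mem_Icc hu
  have h := (taylor_bounds (2 * m + 1) (t * Real.sin u) (mul_nonneg ht hs)).2
  rw [show 2 * m + 1 + 1 = 2 * (m + 1) by ring, pow_mul] at h
  rw [show 2 * m + 2 = 2 * (m + 1) by ring]
  norm_num at h
  exact mul_le_mul_of_nonneg_left h hs

lemma J1_le (m : ℕ) {t : ℝ} (ht : 0 ≤ t) : J1 t ≤ (t / 2) * P1 (2 * m + 1) (t ^ 2 / 4) := by
  rw [← integral_sinT]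
  unfold J1
  refine mul_le_mul_of_nonneg_left ?_ (by positivity)
  refine intervalIntegral.integral_mono_on Real.pi_pos.le
    ((by fun_prop : Continuous fun u => Real.sin u * Real.sin (t * Real.sin u)).intervalIntegrable _ _)
    ((Real.continuous_sin.mul ((continuous_sinT _).comp (by fun_prop))).intervalIntegrable _ _) ?_
  intro u hu
  have hs := Real.sin_nonneg_of_mem_Icc hu
  have h := (taylor_bounds (2 * m) (t * Real.sin u) (mul_nonneg ht hs)).2
  rw [pow_succ, pow_mul] at h
  norm_num at h
  exact mul_le_mul_of_nonneg_left h hs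

/-- a crude bound for `J₁` -/
lemma abs_J1_le (t : ℝ) : |J1 t| ≤ 2 / π := by
  unfold J1
  rw [abs_mul, abs_of_pos (by positivity : 0 < 1 / π)]
  have h : |∫ u in (0 : ℝ)..π, Real.sin u * Real.sin (t * Real.sin u)| ≤ 2 := by
    have h1 : ‖∫ u in (0 : ℝ)..π, Real.sin u * Real.sin (t * Real.sin u)‖ ≤
        ∫ u in (0 : ℝ)..π, Real.sin u := by
      refine intervalIntegral.norm_integral_le_of_norm_le Real.pi_pos.le ?_
        (Real.continuous_sin.intervalIntegrable _ _)
      refine Eventually.of_forall fun u hu => ?_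
      have hs := Real.sin_nonneg_of_mem_Icc (Ioc_subset_Icc_self hu)
      rw [norm_mul, Real.norm_of_nonneg hs]
      exact mul_le_of_le_one_right hs (Real.abs_sin_le_one _)
    rw [integral_sin] at h1
    norm_num at h1
    exact h1
  calc 1 / π * |∫ u in (0 : ℝ)..π, Real.sin u * Real.sin (t * Real.sin u)| ≤ 1 / π * 2 :=
        mul_le_mul_of_nonneg_left h (by positivity)
    _ = 2 / π := by ring

lemma J0_lip (s t : ℝ) : J0 s - 0.637 * |t - s| ≤ J0 t := by
  have hpi : (2 / π : ℝ) ≤ 0.637 := by
    rw [div_le_iff₀ Real.pi_pos]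
    have := Real.pi_gt_d4
    linarith
  have h := Convex.norm_image_sub_le_of_norm_hasDerivWithin_le (f := J0) (f' := fun t => -(J1 t))
    (s := univ) (x := s) (y := t) (C := 0.637)
    (fun x _ => (hasDerivAt_J0 x).hasDerivWithinAt)
    (fun x _ => by rw [norm_neg]; exact (abs_J1_le x).trans hpi) convex_univ (mem_univ _) (mem_univ _)
  rw [Real.norm_eq_abs, Real.norm_eq_abs] at h
  have := (abs_le.1 h).1
  linarith

end Pool.Agent.MeasTri
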