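import Pool.Agent.MeasTri.Bessel

set_option autoImplicit false

namespace Pool.Agent.MeasTri

open MeasureTheory Filter Topology Set intervalIntegral
open scoped Real

lemma J1_nonneg {t : ℝ} (h0 : 0 ≤ t) (h1 : t ≤ 3.6) : 0 ≤ J1 t := by
  refine le_trans ?_ (J1_ge 1 h0)
  refine mul_nonneg (by linarith) ?_
  set s := t ^ 2 / 4 with hs
  have hs0 : 0 ≤ s := by positivity
  have hs1 : s ≤ 3.24 := by rw [hs]; nlinarith
  norm_num [P1, Finset.sum_range_succ, Nat.factorial]
  nlinarith [mul_nonneg (sub_nonneg.2 hs1) (sq_nonneg (s - 4.38)), sq_nonneg s, sq_nonneg (s - 4)]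

lemma J0_anti {s t : ℝ} (h0 : 0 ≤ s) (hst : s ≤ t) (ht : t ≤ 3.6) : J0 t ≤ J0 s := by
  have hm : AntitoneOn J0 (Icc 0 3.6) := by
    refine antitoneOn_of_deriv_nonpos (convex_Icc _ _)
      (fun y _ => (hasDerivAt_J0 y).continuousAt.continuousWithinAt)
      (fun y _ => (hasDerivAt_J0 y).differentiableAt.differentiableWithinAt) ?_
    intro y hy
    rw [interior_Icc] at hy
    rw [(hasDerivAt_J0 y).deriv]
    have := J1_nonneg hy.1.le hy.2.le
    linarith
  exact hm ⟨h0, hst.trans ht⟩ ⟨h0.trans hst, ht⟩ hst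

lemma J0_three : -0.262 ≤ J0 3 := by
  refine le_trans ?_ (J0_ge 2 (by norm_num))
  norm_num [P0, Finset.sum_range_succ, Nat.factorial]

lemma J0_36_ge : -0.3918 ≤ J0 3.6 := by
  refine le_trans ?_ (J0_ge 3 (by norm_num))
  norm_num [P0, Finset.sum_range_succ, Nat.factorial]

lemma J0_36_le : J0 3.6 ≤ 0 := by
  refine le_trans (J0_le 3 (by norm_num)) ?_
  norm_num [P0, Finset.sum_range_succ, Nat.factorial]

lemma J1_36_le : J1 3.6 ≤ 0.0956 := by
  refine le_trans (J1_le 3 (by norm_num)) ?_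
  norm_num [P1, Finset.sum_range_succ, Nat.factorial]

lemma En_36 : En 3.6 ≤ 0.404 ^ 2 := by
  unfold En
  have h1 := J0_36_ge
  have h2 := J0_36_le
  have h3 := J1_36_le
  have h4 := J1_nonneg (t := 3.6) (by norm_num) le_rfl
  have h5 : J0 3.6 ^ 2 ≤ 0.3918 ^ 2 := by nlinarith
  have h6 : J1 3.6 ^ 2 ≤ 0.0956 ^ 2 := by nlinarith
  refine (add_le_add h5 h6).trans (by norm_num)

lemma J0_9_ge : -0.0904 ≤ J0 9 := by
  refine le_trans ?_ (J0_ge 7 (by norm_num))
  norm_num [P0, Finset.sum_range_succ, Nat.factorial]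

lemma J0_9_le : J0 9 ≤ 0 := by
  refine le_trans (J0_le 8 (by norm_num)) ?_
  norm_num [P0, Finset.sum_range_succ, Nat.factorial]

lemma J1_9_le : J1 9 ≤ 0.2454 := by
  refine le_trans (J1_le 7 (by norm_num)) ?_
  norm_num [P1, Finset.sum_range_succ, Nat.factorial]

lemma J1_9_ge : 0 ≤ J1 9 := by
  refine le_trans ?_ (J1_ge 7 (by norm_num))
  norm_num [P1, Finset.sum_range_succ, Nat.factorial]

lemma En_9 : En 9 ≤ 0.262 ^ 2 := by
  unfold En
  have h1 := J0_9_ge
  have h2 := J0_9_le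
  have h3 := J1_9_le
  have h4 := J1_9_ge
  have h5 : J0 9 ^ 2 ≤ 0.0904 ^ 2 := by nlinarith
  have h6 : J1 9 ^ 2 ≤ 0.2454 ^ 2 := by nlinarith
  refine (add_le_add h5 h6).trans (by norm_num)

lemma J0_65 : 0.25 ≤ J0 6.5 := by
  refine le_trans ?_ (J0_ge 5 (by norm_num))
  norm_num [P0, Finset.sum_range_succ, Nat.factorial]

lemma J0_76 : 0.25 ≤ J0 7.6 := by
  refine le_trans ?_ (J0_ge 6 (by norm_num))
  norm_num [P0, Finset.sum_range_succ, Nat.factorial]

lemma J0_86 : 0.01 ≤ J0 8.6 := by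
  refine le_trans ?_ (J0_ge 7 (by norm_num))
  norm_num [P0, Finset.sum_range_succ, Nat.factorial]

/-- `J₀ ≥ -0.404` everywhere on `[0, ∞)` -/
lemma J0_lower {t : ℝ} (ht : 0 ≤ t) : -0.404 ≤ J0 t := by
  rcases le_total t 3.6 with h | h
  · have := J0_anti ht h le_rfl
    have := J0_36_ge
    linarith
  · have h1 : En t ≤ 0.404 ^ 2 := (En_anti (by norm_num) h).trans En_36
    unfold En at h1
    nlinarith [sq_nonneg (J1 t)]

/-- `J₀ ≥ -0.262` on `[0, 3]` -/
lemma J0_lower_small {t : ℝ} (ht : 0 ≤ t) (h3 : t ≤ 3) : -0.262 ≤ J0 t := by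
  have := J0_anti ht h3 (by norm_num)
  have := J0_three
  linarith

/-- `J₀ ≥ -0.262` on `[6, ∞)` -/
lemma J0_lower_large {t : ℝ} (ht : 6 ≤ t) : -0.262 ≤ J0 t := by
  rcases le_total 9 t with h | h
  · have h1 : En t ≤ 0.262 ^ 2 := (En_anti (by norm_num) h).trans En_9
    unfold En at h1
    nlinarith [sq_nonneg (J1 t)]
  · rcases le_total t 7 with h7 | h7
    · have h1 := J0_lip 6.5 t
      have h2 := J0_65
      have h3 : |t - 6.5| ≤ 0.5 := by rw [abs_le]; constructor <;> linarith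
      nlinarith
    · rcases le_total t 8.3 with h8 | h8
      · have h1 := J0_lip 7.6 t
        have h2 := J0_76
        have h3 : |t - 7.6| ≤ 0.7 := by rw [abs_le]; constructor <;> linarith
        nlinarith
      · rcases le_total t 8.9 with h9 | h9
        · have h1 := J0_lip 8.6 t
          have h2 := J0_86
          have h3 : |t - 8.6| ≤ 0.3 := by rw [abs_le]; constructor <;> linarith
          nlinarith
        · have h1 := J0_lip 9 t
          have h2 := J0_9_ge
          have h3 : |t - 9| ≤ 0.1 := by rw [abs_le]; constructor <;> linarith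
          nlinarith

/-- the Bessel inequality used in the proof -/
lemma bessel_sum {s t : ℝ} (hs : 0 ≤ s) (hst : 2 * s ≤ t) : 0 ≤ 0.666 + J0 s + J0 t := by
  rcases le_total s 3 with h | h
  · have h1 := J0_lower_small hs h
    have h2 := J0_lower (t := t) (by linarith)
    linarith
  · have h1 := J0_lower hs
    have h2 := J0_lower_large (t := t) (by linarith)
    linarith

end Pool.Agent.MeasTri
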