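import Pool.Agent.MeasTri.Wild

set_option autoImplicit false

namespace Pool.Agent.MeasTri

open MeasureTheory Filter Topology Metric Set
open scoped ENNReal

instance factTwoPi : Fact (0 < 2 * Real.pi) := ⟨Real.two_pi_pos⟩

/-- the circle as an additive group -/
abbrev Circ : Type := AddCircle (2 * Real.pi)

/-- the point `e^{it}` -/
noncomputable def ee (t : Circ) : ℂ := (AddCircle.toCircle t : ℂ)

lemma ee_add (s t : Circ) : ee (s + t) = ee s * ee t := by
  unfold ee
  rw [AddCircle.toCircle_add, Circle.coe_mul]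

lemma norm_ee (t : Circ) : ‖ee t‖ = 1 := Circle.norm_coe _

lemma continuous_ee : Continuous ee :=
  continuous_subtype_val.comp AddCircle.continuous_toCircle

lemma ee_coe (x : ℝ) : ee (x : Circ) = Complex.exp (x * Complex.I) := by
  unfold ee
  rw [AddCircle.toCircle_apply_mk, Circle.coe_exp]
  have : (2 * Real.pi / (2 * Real.pi) : ℝ) = 1 := div_self Real.two_pi_pos.ne'
  rw [this, one_mul]

lemma exists_ee {s : ℂ} (hs : ‖s‖ = 1) : ∃ t : Circ, ee t = s := by
  refine ⟨((Complex.arg s : ℝ) : Circ), ?_⟩
  rw [ee_coe]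
  have := Complex.norm_mul_exp_arg_mul_I s
  rw [hs] at this
  simpa using this

lemma ee_zsmul (n : ℤ) (t : Circ) : ee (n • t) = ee t ^ n := by
  unfold ee
  rw [AddCircle.toCircle_zsmul, Circle.coe_zpow]

section null

variable {W : Set ℂ}

/-- the measure of the set of directions in which the circle of radius `|r|` meets `W` -/
noncomputable def hitM (W : Set ℂ) (p : ℂ) (r : ℂ) : ℝ≥0∞ :=
  volume {t : Circ | p + r * ee t ∈ W}

lemma measurable_hit (hW : MeasurableSet W) (p r : ℂ) :
    MeasurableSet {t : Circ | p + r * ee t ∈ W} := by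
  have : Measurable (fun t : Circ => p + r * ee t) :=
    (continuous_const.add (continuous_const.mul continuous_ee)).measurable
  exact this hW

/-- rotating the radius vector does not change the measure -/
lemma hitM_mul_ee (W : Set ℂ) (p r : ℂ) (s : Circ) : hitM W p (r * ee s) = hitM W p r := by
  unfold hitM
  have : {t : Circ | p + r * ee s * ee t ∈ W} = (fun t => t + s) ⁻¹' {t : Circ | p + r * ee t ∈ W} := by
    ext t
    simp only [mem_preimage]
    change p + r * ee s * ee t ∈ W ↔ p + r * ee (t + s) ∈ W
    rw [ee_add, mul_assoc, mul_comm (ee s)]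
  rw [this]
  exact measure_preimage_add_right volume s _

lemma hitM_norm (W : Set ℂ) (p r : ℂ) : hitM W p r = hitM W p (‖r‖ : ℂ) := by
  rcases eq_or_ne r 0 with h | h
  · rw [h]; simp
  · obtain ⟨s, hs⟩ := exists_ee (s := r / ‖r‖) (by
      rw [norm_div, Complex.norm_real, norm_norm]
      exact div_self (norm_ne_zero_iff.2 h))
    have : r = (‖r‖ : ℂ) * ee s := by
      rw [hs]
      have : (‖r‖ : ℂ) ≠ 0 := by exact_mod_cast (norm_ne_zero_iff.2 h)
      field_simp
    conv_lhs => rw [this]
    rw [hitM_mul_ee]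

/-- almost every circle around `p` meets a null set `W` in a null set -/
lemma ae_hit_zero (hW : MeasurableSet W) (h0 : volume W = 0) (p : ℂ) :
    ∀ᵐ r : ℝ, 0 < r → hitM W p (r : ℂ) = 0 := by
  set S : Set ℂ := {z | p + z ∈ W} with hS
  have hSm : MeasurableSet S := (measurable_const_add p) hW
  have hS0 : volume S = 0 := by
    have : S = (fun z => p + z) ⁻¹' W := rfl
    rw [this, measure_preimage_add]; exact h0
  have h1 : ∫⁻ q in polarCoord.target, ENNReal.ofReal q.1 •
      (S.indicator (1 : ℂ → ℝ≥0∞)) (Complex.polarCoord.symm q) = 0 := by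
    rw [Complex.lintegral_comp_polarCoord_symm, lintegral_indicator_one hSm, hS0]
  have hpm : Measurable (fun q : ℝ × ℝ => Complex.polarCoord.symm q) := by
    have : (fun q : ℝ × ℝ => Complex.polarCoord.symm q) =
        fun q : ℝ × ℝ => (q.1 : ℂ) * (Real.cos q.2 + Real.sin q.2 * Complex.I) := by
      ext q; exact Complex.polarCoord_symm_apply q
    rw [this]
    fun_prop
  have hmeas : Measurable (fun q : ℝ × ℝ => ENNReal.ofReal q.1 •
      (S.indicator (1 : ℂ → ℝ≥0∞)) (Complex.polarCoord.symm q)) := by
    refine Measurable.mul (by fun_prop) ?_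
    exact (measurable_one.indicator hSm).comp hpm
  rw [lintegral_eq_zero_iff hmeas] at h1
  have htarget : (polarCoord.target : Set (ℝ × ℝ)) = Ioi (0 : ℝ) ×ˢ Ioo (-Real.pi) Real.pi := rfl
  rw [htarget, Measure.volume_eq_prod, ← Measure.prod_restrict] at h1
  have h2 := Measure.ae_ae_of_ae_prod h1
  rw [ae_restrict_iff' measurableSet_Ioi] at h2
  filter_upwards [h2] with r hr hr0
  have hr1 := hr hr0
  have hr2 : ∀ᵐ t ∂(volume.restrict (Ioc (-Real.pi) (-Real.pi + 2 * Real.pi))),
      p + (r : ℂ) * ee ((t : ℝ) : Circ) ∉ W := by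
    have : (-Real.pi + 2 * Real.pi : ℝ) = Real.pi := by ring
    rw [this, ← restrict_Ioo_eq_restrict_Ioc]
    filter_upwards [hr1] with t ht
    simp only [Pi.zero_apply, smul_eq_mul, mul_eq_zero, ENNReal.ofReal_eq_zero, not_le.2 hr0,
      false_or] at ht
    intro hmem
    have : Complex.polarCoord.symm (r, t) ∈ S := by
      rw [Complex.polarCoord_symm_apply]
      change p + _ ∈ W
      rw [ee_coe, Complex.exp_mul_I] at hmem
      simpa using hmem
    rw [indicator_of_mem this] at ht
    simp at ht
  have h3 := (AddCircle.measurePreserving_mk (2 * Real.pi) (-Real.pi)).measure_preimage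
    (measurable_hit hW p (r : ℂ)).nullMeasurableSet
  unfold hitM
  rw [← h3]
  rw [ae_iff] at hr2
  simpa using hr2

/-- the set of `s` such that the circle of radius `x |1 + e^{is}|` is bad is null -/
lemma ae_hit_one_add (hW : MeasurableSet W) (h0 : volume W = 0) (p : ℂ) {x : ℝ} (hx : 0 < x) :
    ∀ᵐ s : Circ, hitM W p ((x : ℂ) * (1 + ee s)) = 0 := by
  have hbad := ae_hit_zero hW h0 p
  rw [ae_iff] at hbad
  set B : Set ℝ := {a | ¬ (0 < a → hitM W p (a : ℂ) = 0)} with hB
  -- preimage under `2 x cos (t / 2)`
  have hpre : volume {t : ℝ | t ∈ Ioo (-Real.pi) Real.pi ∧ 2 * x * Real.cos (t / 2) ∈ B} = 0 := by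
    have hd : DifferentiableOn ℝ (fun r : ℝ => 2 * Real.arccos (r / (2 * x))) (B ∩ Ioo 0 (2 * x)) := by
      intro r hr
      have h1 : r / (2 * x) ≠ -1 := by
        have : 0 < r / (2 * x) := div_pos hr.2.1 (by linarith)
        linarith
      have h2 : r / (2 * x) ≠ 1 := by
        have : r / (2 * x) < 1 := (div_lt_one (by linarith)).2 hr.2.2
        linarith
      have := (Real.differentiableAt_arccos (x := r / (2 * x))).2 ⟨h1, h2⟩
      exact ((this.comp r (by fun_prop : DifferentiableAt ℝ (fun r : ℝ => r / (2 * x)) r)).const_mul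
        2).differentiableWithinAt
    have hB0 : volume (B ∩ Ioo 0 (2 * x)) = 0 := measure_mono_null inter_subset_left hbad
    have i1 := addHaar_image_eq_zero_of_differentiableOn_of_addHaar_eq_zero volume hd hB0
    have i2 := addHaar_image_eq_zero_of_differentiableOn_of_addHaar_eq_zero volume hd.neg hB0
    refine measure_mono_null (t := {0} ∪ (((fun r : ℝ => 2 * Real.arccos (r / (2 * x))) ''
      (B ∩ Ioo 0 (2 * x))) ∪ ((-(fun r : ℝ => 2 * Real.arccos (r / (2 * x)))) ''
      (B ∩ Ioo 0 (2 * x))))) ?_ (measure_union_null (by simp) (measure_union_null i1 i2))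
    rintro t ⟨ht, htB⟩
    rcases lt_trichotomy t 0 with h | h | h
    · right; right
      refine ⟨2 * x * Real.cos (t / 2), ⟨htB, ?_, ?_⟩, ?_⟩
      · have := Real.cos_pos_of_mem_Ioo (x := t / 2) ⟨by linarith [ht.1], by linarith [ht.2]⟩
        positivity
      · have h1 : Real.cos (t / 2) < 1 := by
          rw [← Real.cos_neg, ← Real.cos_zero]
          exact Real.cos_lt_cos_of_nonneg_of_le_pi (le_refl 0) (by linarith [ht.1, Real.pi_pos])
            (by linarith)
        nlinarith
      · simp only [Pi.neg_apply]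
        rw [mul_div_cancel_left₀ _ (by positivity : (2 * x) ≠ 0), ← Real.cos_neg,
          Real.arccos_cos (by linarith) (by linarith [ht.1, Real.pi_pos])]
        ring
    · left; exact h
    · right; left
      refine ⟨2 * x * Real.cos (t / 2), ⟨htB, ?_, ?_⟩, ?_⟩
      · have := Real.cos_pos_of_mem_Ioo (x := t / 2) ⟨by linarith [ht.1], by linarith [ht.2]⟩
        positivity
      · have h1 : Real.cos (t / 2) < 1 := by
          rw [← Real.cos_zero]
          exact Real.cos_lt_cos_of_nonneg_of_le_pi (le_refl 0) (by linarith [ht.2, Real.pi_pos])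
            (by linarith)
        nlinarith
      · simp only
        rw [mul_div_cancel_left₀ _ (by positivity : (2 * x) ≠ 0),
          Real.arccos_cos (by linarith) (by linarith [ht.2, Real.pi_pos])]
        ring
  -- norm computation
  have hnorm : ∀ t ∈ Ioo (-Real.pi) Real.pi,
      ‖(x : ℂ) * (1 + ee ((t : ℝ) : Circ))‖ = 2 * x * Real.cos (t / 2) := by
    intro t ht
    have hc : 0 < Real.cos (t / 2) :=
      Real.cos_pos_of_mem_Ioo ⟨by linarith [ht.1], by linarith [ht.2]⟩
    have h1 : (1 + ee ((t : ℝ) : Circ)) = 2 * Real.cos (t / 2) * Complex.exp ((t / 2 : ℝ) * Complex.I) := by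
      rw [ee_coe]
      have e1 : Complex.exp (t * Complex.I) =
          Complex.exp ((t / 2 : ℝ) * Complex.I) * Complex.exp ((t / 2 : ℝ) * Complex.I) := by
        rw [← Complex.exp_add]; congr 1; push_cast; ring
      have e2 : (1 : ℂ) = Complex.exp ((t / 2 : ℝ) * Complex.I) * Complex.exp (-((t / 2 : ℝ) * Complex.I)) := by
        rw [← Complex.exp_add]; simp
      have e3 : (2 : ℂ) * (Real.cos (t / 2) : ℂ) = Complex.exp ((t / 2 : ℝ) * Complex.I) +
          Complex.exp (-((t / 2 : ℝ) * Complex.I)) := by
        rw [Complex.ofReal_cos, Complex.cos]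
        rw [neg_mul]
        ring
      rw [e1, e3]
      nth_rewrite 1 [e2]
      ring
    rw [h1, norm_mul, norm_mul, norm_mul, Complex.norm_exp_ofReal_mul_I, Complex.norm_real,
      Complex.norm_real, Real.norm_of_nonneg hx.le, Real.norm_of_nonneg hc.le]
    simp
    ring
  -- transfer to the circle
  have hmeas : MeasurableSet {s : Circ | hitM W p ((x : ℂ) * (1 + ee s)) ≠ 0} := by
    have hm : Measurable (fun s : Circ => hitM W p ((x : ℂ) * (1 + ee s))) := by
      unfold hitM
      have hs : MeasurableSet {q : Circ × Circ | p + (x : ℂ) * (1 + ee q.1) * ee q.2 ∈ W} := by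
        have : Continuous (fun q : Circ × Circ => p + (x : ℂ) * (1 + ee q.1) * ee q.2) := by
          have h1 : Continuous (fun q : Circ × Circ => ee q.1) := continuous_ee.comp continuous_fst
          have h2 : Continuous (fun q : Circ × Circ => ee q.2) := continuous_ee.comp continuous_snd
          exact continuous_const.add ((continuous_const.mul (continuous_const.add h1)).mul h2)
        exact this.measurable hW
      exact measurable_measure_prodMk_left hs
    exact hm (measurableSet_singleton 0).compl
  rw [ae_iff]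
  have h3 := (AddCircle.measurePreserving_mk (2 * Real.pi) (-Real.pi)).measure_preimage
    hmeas.nullMeasurableSet
  rw [show {a : Circ | ¬ hitM W p ((x : ℂ) * (1 + ee a)) = 0} =
    {s : Circ | hitM W p ((x : ℂ) * (1 + ee s)) ≠ 0} from rfl, ← h3]
  have : (-Real.pi + 2 * Real.pi : ℝ) = Real.pi := by ring
  rw [this, ← restrict_Ioo_eq_restrict_Ioc,
    Measure.restrict_apply' measurableSet_Ioo]
  refine measure_mono_null ?_ hpre
  rintro t ⟨ht1, ht2⟩
  refine ⟨ht2, ?_⟩
  have ht1' : hitM W p ((x : ℂ) * (1 + ee ((t : ℝ) : Circ))) ≠ 0 := ht1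
  rw [hitM_norm, hnorm t ht2] at ht1'
  intro hcon
  exact ht1' (hcon (by
    have := Real.cos_pos_of_mem_Ioo (x := t / 2) ⟨by linarith [ht2.1], by linarith [ht2.2]⟩
    positivity))

/-- two-step walks from `p` with steps of length `x` avoid a null set almost surely -/
lemma ae_two_steps (hW : MeasurableSet W) (h0 : volume W = 0) (p : ℂ) {x : ℝ} (hx : 0 < x) :
    ∀ᵐ s : Circ, ∀ᵐ t : Circ, p + x * ee s + x * ee t ∉ W := by
  have h1 := ae_hit_one_add hW h0 p hx
  have hcont : Continuous (fun q : Circ × Circ => p + (x : ℂ) * ee q.1 + (x : ℂ) * ee q.2) := by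
    have h1 : Continuous (fun q : Circ × Circ => ee q.1) := continuous_ee.comp continuous_fst
    have h2 : Continuous (fun q : Circ × Circ => ee q.2) := continuous_ee.comp continuous_snd
    exact (continuous_const.add (continuous_const.mul h1)).add (continuous_const.mul h2)
  have hcont2 : Continuous (fun q : Circ × Circ => p + (x : ℂ) * (1 + ee q.1) * ee q.2) := by
    have h1 : Continuous (fun q : Circ × Circ => ee q.1) := continuous_ee.comp continuous_fst
    have h2 : Continuous (fun q : Circ × Circ => ee q.2) := continuous_ee.comp continuous_snd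
    exact continuous_const.add ((continuous_const.mul (continuous_const.add h1)).mul h2)
  set E : Set (Circ × Circ) := {q | p + (x : ℂ) * ee q.1 + (x : ℂ) * ee q.2 ∈ W} with hE
  have hEm : MeasurableSet E := hcont.measurable hW
  set F : Set (Circ × Circ) := {q | p + (x : ℂ) * (1 + ee q.1) * ee q.2 ∈ W} with hF
  have hFm : MeasurableSet F := hcont2.measurable hW
  have hF0 : (volume.prod volume : Measure (Circ × Circ)) F = 0 := by
    rw [Measure.measure_prod_null hFm]
    filter_upwards [h1] with s hs
    exact hs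
  have hF0' : (volume.prod volume : Measure (Circ × Circ)) (Prod.swap ⁻¹' F) = 0 := by
    have := (Measure.measurePreserving_swap (μ := (volume : Measure Circ))
      (ν := (volume : Measure Circ))).measure_preimage hFm.nullMeasurableSet
    rw [this]; exact hF0
  have hE0 : (volume.prod volume : Measure (Circ × Circ)) E = 0 := by
    have hmp := measurePreserving_prod_add (volume : Measure Circ) (volume : Measure Circ)
    have := hmp.measure_preimage hEm.nullMeasurableSet
    rw [← this]
    refine measure_mono_null ?_ hF0'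
    rintro ⟨a, b⟩ hab
    simp only [mem_preimage] at hab ⊢
    change p + (x : ℂ) * (1 + ee b) * ee a ∈ W
    have hab' : p + (x : ℂ) * ee a + (x : ℂ) * ee (a + b) ∈ W := hab
    rw [ee_add] at hab'
    rwa [show p + (x : ℂ) * (1 + ee b) * ee a = p + (x : ℂ) * ee a + (x : ℂ) * (ee a * ee b) by ring]
  have hae : ∀ᵐ q ∂(volume.prod volume : Measure (Circ × Circ)), q ∉ E := measure_eq_zero_iff_ae_notMem.1 hE0
  exact Measure.ae_ae_of_ae_prod hae

end null

end Pool.Agent.MeasTri
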