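import Pool.Agent.MeasTri.Golden

set_option autoImplicit false

namespace Pool.Agent.MeasTri

open MeasureTheory Filter Topology Metric Set

/-- the dyadic radii -/
noncomputable def rad (k : ℕ) : ℝ := (1 / 2 : ℝ) ^ k

lemma rad_pos (k : ℕ) : 0 < rad k := by unfold rad; positivity

lemma rad_succ (k : ℕ) : rad (k + 1) = rad k / 2 := by unfold rad; rw [pow_succ]; ring

lemma rad_tendsto : Tendsto rad atTop (𝓝 0) := by
  unfold rad
  exact tendsto_pow_atTop_nhds_zero_of_lt_one (by norm_num) (by norm_num)

lemma rad_anti {i j : ℕ} (h : i ≤ j) : rad j ≤ rad i := by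
  unfold rad
  exact pow_le_pow_of_le_one (by norm_num) (by norm_num) h

/-- the area of a ball of dyadic radius -/
noncomputable def ballVol (k : ℕ) : ℝ := volume.real (closedBall (0 : ℂ) (rad k))

/-- density of `A` in the ball of radius `2^{-k}` around `p` -/
noncomputable def dens (A : Set ℂ) (k : ℕ) (p : ℂ) : ℝ :=
  volume.real (A ∩ closedBall p (rad k)) / ballVol k

/-- `p` is a density point of `A` along dyadic radii -/
def Full (A : Set ℂ) (p : ℂ) : Prop := Tendsto (fun k => dens A k p) atTop (𝓝 1)

lemma closedBall_fin (p : ℂ) (r : ℝ) : volume (closedBall p r) ≠ ⊤ :=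
  measure_closedBall_lt_top.ne

lemma inter_fin (A : Set ℂ) (p : ℂ) (r : ℝ) : volume (A ∩ closedBall p r) ≠ ⊤ :=
  ((measure_mono inter_subset_right).trans_lt measure_closedBall_lt_top).ne

lemma vol_closedBall (p : ℂ) (k : ℕ) : volume.real (closedBall p (rad k)) = ballVol k := by
  unfold ballVol Measure.real
  rw [Complex.volume_closedBall, Complex.volume_closedBall]

lemma ballVol_pos (k : ℕ) : 0 < ballVol k := by
  unfold ballVol Measure.real
  exact ENNReal.toReal_pos (measure_closedBall_pos volume _ (rad_pos k)).ne' (closedBall_fin _ _)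

lemma ballVol_succ (k : ℕ) : ballVol k = 4 * ballVol (k + 1) := by
  unfold ballVol Measure.real
  rw [Complex.volume_closedBall, Complex.volume_closedBall, rad_succ]
  rw [ENNReal.toReal_mul, ENNReal.toReal_mul, ENNReal.toReal_pow, ENNReal.toReal_pow,
    ENNReal.toReal_ofReal (rad_pos k).le, ENNReal.toReal_ofReal (by have := rad_pos k; linarith)]
  ring

lemma dens_nonneg (A : Set ℂ) (k : ℕ) (p : ℂ) : 0 ≤ dens A k p :=
  div_nonneg measureReal_nonneg (ballVol_pos k).le

lemma dens_le_one (A : Set ℂ) (k : ℕ) (p : ℂ) : dens A k p ≤ 1 := by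
  unfold dens
  rw [div_le_one (ballVol_pos k), ← vol_closedBall p k]
  exact measureReal_mono inter_subset_right (closedBall_fin _ _)

lemma dens_compl {A : Set ℂ} (hA : NullMeasurableSet A volume) (k : ℕ) (p : ℂ) :
    dens A k p + dens Aᶜ k p = 1 := by
  unfold dens
  rw [← add_div, div_eq_one_iff_eq (ballVol_pos k).ne', ← vol_closedBall p k]
  have h := measure_inter_add_sdiff₀ (μ := volume) (closedBall p (rad k)) hA
  have h2 : closedBall p (rad k) \ A = Aᶜ ∩ closedBall p (rad k) := by
    ext x; simp [and_comm]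
  rw [h2, inter_comm] at h
  unfold Measure.real
  rw [← ENNReal.toReal_add (inter_fin _ _ _) (inter_fin _ _ _), h]

lemma full_compl_iff {A : Set ℂ} (hA : NullMeasurableSet A volume) (p : ℂ) :
    Full Aᶜ p ↔ Tendsto (fun k => dens A k p) atTop (𝓝 0) := by
  unfold Full
  have h1 : ∀ k, dens Aᶜ k p = 1 - dens A k p := by
    intro k; have := dens_compl hA k p; linarith
  constructor
  · intro h
    have := (tendsto_const_nhds (x := (1 : ℝ))).sub h
    simpa [h1] using this
  · intro h
    have := (tendsto_const_nhds (x := (1 : ℝ))).sub h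
    simpa [h1] using this

lemma not_full_both {A : Set ℂ} (hA : NullMeasurableSet A volume) {p : ℂ} (h1 : Full A p)
    (h2 : Full Aᶜ p) : False := by
  rw [full_compl_iff hA] at h2
  have := tendsto_nhds_unique h1 h2
  norm_num at this

lemma ae_full_restrict (A : Set ℂ) : ∀ᵐ x ∂(volume.restrict A), Full A x := by
  filter_upwards [Besicovitch.ae_tendsto_measure_inter_div volume A] with x hx
  have h1 : Tendsto rad atTop (𝓝[>] 0) := by
    rw [tendsto_nhdsWithin_iff]
    exact ⟨rad_tendsto, Eventually.of_forall fun k => rad_pos k⟩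
  have h2 := hx.comp h1
  have h3 := (ENNReal.tendsto_toReal (by norm_num : (1 : ENNReal) ≠ ⊤)).comp h2
  unfold Full
  refine (h3.congr ?_).trans (by simp)
  intro k
  simp only [Function.comp]
  rw [ENNReal.toReal_div]
  unfold dens
  rw [← vol_closedBall x k]
  rfl

lemma ae_full_or {A : Set ℂ} (hA : NullMeasurableSet A volume) :
    ∀ᵐ x : ℂ, Full A x ∨ Full Aᶜ x := by
  have h1 := ae_full_restrict A
  have h2 := ae_full_restrict Aᶜ
  have h1' := (ae_restrict_iff'₀ hA).1 h1
  have h2' := (ae_restrict_iff'₀ hA.compl).1 h2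
  filter_upwards [h1', h2'] with x hx1 hx2
  by_cases hx : x ∈ A
  · exact Or.inl (hx1 hx)
  · exact Or.inr (hx2 hx)

/-- comparison of densities for a forbidden triple -/
lemma dens_triple {A : Set ℂ} {p q1 q2 : ℂ}
    (h : ∀ z : ℂ, ¬ (p + z ∈ A ∧ q1 + z ∈ A ∧ q2 + z ∈ A)) (k : ℕ) :
    dens A k p ≤ dens Aᶜ k q1 + dens Aᶜ k q2 := by
  unfold dens
  rw [← add_div]
  refine div_le_div_of_nonneg_right ?_ (ballVol_pos k).le
  have hsub : A ∩ closedBall p (rad k) ⊆
      ((fun x => x + (q1 - p)) ⁻¹' (Aᶜ ∩ closedBall q1 (rad k))) ∪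
      ((fun x => x + (q2 - p)) ⁻¹' (Aᶜ ∩ closedBall q2 (rad k))) := by
    intro x hx
    have hx2 := hx.2
    rw [mem_closedBall, dist_eq_norm] at hx2
    have hh := h (x - p)
    have e0 : p + (x - p) = x := by ring
    have e1 : q1 + (x - p) = x + (q1 - p) := by ring
    have e2 : q2 + (x - p) = x + (q2 - p) := by ring
    rw [e0, e1, e2] at hh
    by_cases h1 : x + (q1 - p) ∈ A
    · right
      refine ⟨fun h2 => hh ⟨hx.1, h1, h2⟩, ?_⟩
      rw [mem_closedBall, dist_eq_norm]
      rwa [show x + (q2 - p) - q2 = x - p by ring]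
    · left
      refine ⟨h1, ?_⟩
      rw [mem_closedBall, dist_eq_norm]
      rwa [show x + (q1 - p) - q1 = x - p by ring]
  have tr : ∀ (v : ℂ) (s : Set ℂ), volume ((fun x => x + v) ⁻¹' s) = volume s :=
    fun v s => measure_preimage_add_right volume v s
  unfold Measure.real
  rw [← ENNReal.toReal_add (inter_fin _ _ _) (inter_fin _ _ _)]
  refine ENNReal.toReal_mono (ENNReal.add_ne_top.2 ⟨inter_fin _ _ _, inter_fin _ _ _⟩) ?_
  refine (measure_mono hsub).trans ((measure_union_le _ _).trans ?_)
  rw [tr, tr]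

/-- if a triple is never completely contained in `A` under small translations and two of the
points are density points of `A`, the third is a density point of the complement -/
lemma full_compl_of_triple {A : Set ℂ} (hA : NullMeasurableSet A volume) {p q1 q2 : ℂ}
    (h : ∀ z : ℂ, ¬ (p + z ∈ A ∧ q1 + z ∈ A ∧ q2 + z ∈ A)) (h1 : Full A q1) (h2 : Full A q2) :
    Full Aᶜ p := by
  rw [full_compl_iff hA]
  have c1 : Tendsto (fun k => dens Aᶜ k q1 + dens Aᶜ k q2) atTop (𝓝 0) := by
    have h1' : Tendsto (fun k => dens Aᶜ k q1) atTop (𝓝 0) := by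
      rw [← full_compl_iff hA.compl, compl_compl]; exact h1
    have h2' : Tendsto (fun k => dens Aᶜ k q2) atTop (𝓝 0) := by
      rw [← full_compl_iff hA.compl, compl_compl]; exact h2
    simpa using h1'.add h2'
  exact squeeze_zero (fun k => dens_nonneg _ _ _) (fun k => dens_triple h k) c1

/-- measurability of the set of density points -/
lemma measurableSet_full {A : Set ℂ} (hA : NullMeasurableSet A volume) :
    MeasurableSet {p | Full A p} := by
  -- replace `A` by a Borel set
  obtain ⟨B, hB, hAB⟩ : ∃ B : Set ℂ, MeasurableSet B ∧ A =ᵐ[volume] B :=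
    ⟨toMeasurable volume A, measurableSet_toMeasurable _ _, hA.toMeasurable_ae_eq.symm⟩
  have hdens : ∀ k p, dens A k p = dens B k p := by
    intro k p
    unfold dens Measure.real
    congr 2
    exact measure_congr (hAB.inter (ae_eq_refl _))
  have hset : {p | Full A p} = {p | Tendsto (fun k => dens B k p) atTop (𝓝 1)} := by
    ext p
    unfold Full
    simp only [hdens]
  rw [hset]
  refine measurableSet_tendsto (𝓝 (1 : ℝ)) (f := fun k p => dens B k p) ?_
  intro k
  unfold dens Measure.real
  refine Measurable.div_const ?_ _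
  refine Measurable.ennreal_toReal ?_
  have hs : MeasurableSet {x : ℂ × ℂ | x.2 ∈ B ∧ dist x.2 x.1 ≤ rad k} := by
    refine MeasurableSet.inter (measurable_snd hB) ?_
    exact measurableSet_le (measurable_snd.dist measurable_fst) measurable_const
  exact measurable_measure_prodMk_left hs

end Pool.Agent.MeasTri
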