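import Pool.Agent.MeasTri.Basic

set_option autoImplicit false

namespace Pool.Agent.MeasTri

open Complex Polynomial

/-- squared chord length -/
lemma normSq_sub_one {s : ℂ} (hs : ‖s‖ = 1) : ((‖s - 1‖ ^ 2 : ℝ) : ℂ) = 2 + (-s) + (-s)⁻¹ := by
  have h0 : s ≠ 0 := by
    intro h; rw [h, norm_zero] at hs; norm_num at hs
  have hinv : s⁻¹ = (starRingEnd ℂ) s := by
    rw [Complex.inv_def, Complex.normSq_eq_norm_sq, hs]; simp
  rw [inv_neg, hinv, ← Complex.normSq_eq_norm_sq, ← Complex.mul_conj]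
  have h1 : s * (starRingEnd ℂ) s = 1 := by
    rw [Complex.mul_conj, Complex.normSq_eq_norm_sq, hs]; simp
  simp only [map_sub, map_one]
  linear_combination h1

lemma galois_two {N : ℕ} (hN : Odd N) {e k : ℂ} (he : e ^ N = 1) (hk : k ^ N = 1)
    (h : (2 + e + e⁻¹) * (2 + k + k⁻¹) = 1) :
    (2 + e ^ 2 + (e ^ 2)⁻¹) * (2 + k ^ 2 + (k ^ 2)⁻¹) = 1 := by
  have hN0 : 0 < N := hN.pos
  have hprim : IsPrimitiveRoot (Complex.exp (2 * Real.pi * I / N)) N :=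
    Complex.isPrimitiveRoot_exp N hN0.ne'
  set z : ℂ := Complex.exp (2 * Real.pi * I / N) with hz
  have : NeZero N := ⟨hN0.ne'⟩
  obtain ⟨i, -, hi⟩ := hprim.eq_pow_of_pow_eq_one he
  obtain ⟨j, -, hj⟩ := hprim.eq_pow_of_pow_eq_one hk
  have inv_of : ∀ w : ℂ, w ^ N = 1 → w⁻¹ = w ^ (N - 1) := by
    intro w hw
    have h2 : w * w ^ (N - 1) = 1 := by
      rw [← pow_succ', Nat.sub_add_cancel hN0, hw]
    exact inv_eq_of_mul_eq_one_right h2
  let P : ℤ[X] := (2 + X ^ i + X ^ (i * (N - 1))) * (2 + X ^ j + X ^ (j * (N - 1))) - 1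
  have hP : ∀ w : ℂ, w ^ N = 1 → aeval w P =
      (2 + w ^ i + (w ^ i)⁻¹) * (2 + w ^ j + (w ^ j)⁻¹) - 1 := by
    intro w hw
    have e1 : (w ^ i)⁻¹ = w ^ (i * (N - 1)) := by
      rw [inv_of (w ^ i) (by rw [← pow_mul, mul_comm, pow_mul, hw, one_pow]), ← pow_mul]
    have e2 : (w ^ j)⁻¹ = w ^ (j * (N - 1)) := by
      rw [inv_of (w ^ j) (by rw [← pow_mul, mul_comm, pow_mul, hw, one_pow]), ← pow_mul]
    rw [e1, e2]
    simp [P, map_ofNat]
  have hzN : z ^ N = 1 := hprim.pow_eq_one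
  have h1 : aeval z P = 0 := by
    rw [hP z hzN, hi, hj, h, sub_self]
  have hint : IsIntegral ℤ z := hprim.isIntegral hN0
  have hdvd : minpoly ℤ z ∣ P := minpoly.isIntegrallyClosed_dvd hint h1
  have hcop : Nat.Coprime 2 N := by
    rw [Nat.coprime_two_left]; exact hN
  have hmin : minpoly ℤ z = minpoly ℤ (z ^ 2) := hprim.minpoly_eq_pow_coprime hcop
  have h2 : aeval (z ^ 2) P = 0 := by
    obtain ⟨Q, hQ⟩ := hdvd
    rw [hQ, map_mul, hmin, minpoly.aeval, zero_mul]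
  rw [hP (z ^ 2) (by rw [← pow_mul, mul_comm, pow_mul, hzN, one_pow])] at h2
  have ei : (z ^ 2) ^ i = e ^ 2 := by rw [← hi]; ring
  have ej : (z ^ 2) ^ j = k ^ 2 := by rw [← hj]; ring
  rw [ei, ej] at h2
  linear_combination h2

/-- If two unit complex numbers `s`, `t` satisfy `s ^ n = -1`, `t ^ m = -1` with `n`, `m` odd and
`|s - 1| |t - 1| = 1`, then `|s - 1| ^ 2 + |t - 1| ^ 2` is `2` or `3`. -/
lemma chord_sum {s t : ℂ} (hs : ‖s‖ = 1) (ht : ‖t‖ = 1) {n m : ℤ} (hn : Odd n) (hm : Odd m)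
    (hsn : s ^ n = -1) (htm : t ^ m = -1) (h : ‖s - 1‖ * ‖t - 1‖ = 1) :
    ‖s - 1‖ ^ 2 + ‖t - 1‖ ^ 2 = 2 ∨ ‖s - 1‖ ^ 2 + ‖t - 1‖ ^ 2 = 3 := by
  have hs0 : s ≠ 0 := by
    intro h; rw [h, norm_zero] at hs; norm_num at hs
  have ht0 : t ≠ 0 := by
    intro h; rw [h, norm_zero] at ht; norm_num at ht
  have odd_nat : ∀ {k : ℤ}, Odd k → Odd k.natAbs := by
    intro k hk; exact Int.natAbs_odd.2 hk
  have powabs : ∀ {w : ℂ} {k : ℤ}, w ≠ 0 → Odd k → w ^ k = -1 → (-w) ^ k.natAbs = 1 := by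
    intro w k hw hk hwk
    have h1 : w ^ k.natAbs = -1 := by
      rcases Int.natAbs_eq k with h | h
      · rw [← zpow_natCast, ← h]; exact hwk
      · rw [h, zpow_neg, zpow_natCast] at hwk
        have := congrArg (fun z => z⁻¹) hwk
        simpa [inv_inv] using this
    rw [(odd_nat hk).neg_pow, h1, neg_neg]
  have e1 : (-s) ^ (n.natAbs * m.natAbs) = 1 := by
    rw [pow_mul, powabs hs0 hn hsn, one_pow]
  have e2 : (-t) ^ (n.natAbs * m.natAbs) = 1 := by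
    rw [mul_comm, pow_mul, powabs ht0 hm htm, one_pow]
  have hodd : Odd (n.natAbs * m.natAbs) := (odd_nat hn).mul (odd_nat hm)
  set a : ℝ := ‖s - 1‖ ^ 2 with ha
  set b : ℝ := ‖t - 1‖ ^ 2 with hb
  have hab : a * b = 1 := by
    rw [ha, hb, ← mul_pow, h]; norm_num
  have hA : (a : ℂ) = 2 + (-s) + (-s)⁻¹ := normSq_sub_one hs
  have hB : (b : ℂ) = 2 + (-t) + (-t)⁻¹ := normSq_sub_one ht
  have hprod : (2 + (-s) + (-s)⁻¹) * (2 + (-t) + (-t)⁻¹) = 1 := by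
    rw [← hA, ← hB]; exact_mod_cast hab
  have hg := galois_two hodd e1 e2 hprod
  have sq : ∀ w : ℂ, w ≠ 0 → 2 + w ^ 2 + (w ^ 2)⁻¹ = ((2 + w + w⁻¹) - 2) ^ 2 := by
    intro w hw; field_simp; ring
  rw [sq _ (neg_ne_zero.2 hs0), sq _ (neg_ne_zero.2 ht0), ← hA, ← hB] at hg
  have hg' : (a - 2) ^ 2 * (b - 2) ^ 2 = 1 := by exact_mod_cast hg
  have h3 : (a + b - 2) * (a + b - 3) = 0 := by
    have : (a - 2) ^ 2 * (b - 2) ^ 2 = (a * b - 2 * (a + b) + 4) ^ 2 := by ring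
    rw [this, hab] at hg'
    nlinarith
  rcases mul_eq_zero.1 h3 with h4 | h4
  · left; linarith
  · right; linarith

lemma re_exp_five : (Complex.exp (2 * Real.pi * I / 5)).re = (Real.sqrt 5 - 1) / 4 := by
  have e : (2 * Real.pi * I / 5 : ℂ) = ((2 * (Real.pi / 5) : ℝ) : ℂ) * I := by
    push_cast; ring
  rw [e, Complex.exp_ofReal_mul_I_re, Real.cos_two_mul, Real.cos_pi_div_five]
  have h5 : Real.sqrt 5 * Real.sqrt 5 = 5 := Real.mul_self_sqrt (by norm_num)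
  nlinarith

/-- the regular pentagon: both isosceles triangles with golden side ratio cannot be avoided -/
lemma pentagon {f : ℂ → Bool} {x y : ℝ} (hx : 0 < x) (hy : 0 < y)
    (hxy : y ^ 2 = (3 + Real.sqrt 5) / 2 * x ^ 2) (h1 : Avoid f x x y) (h2 : Avoid f y y x) :
    False := by
  have h5 : Real.sqrt 5 * Real.sqrt 5 = 5 := Real.mul_self_sqrt (by norm_num)
  have hprim : IsPrimitiveRoot (Complex.exp (2 * Real.pi * I / (5 : ℕ))) 5 :=
    Complex.isPrimitiveRoot_exp 5 (by norm_num)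
  have hcast : (Complex.exp (2 * Real.pi * I / (5 : ℕ))) = Complex.exp (2 * Real.pi * I / 5) := by
    norm_num
  rw [hcast] at hprim
  have hre := re_exp_five
  set z : ℂ := Complex.exp (2 * Real.pi * I / 5) with hz
  have hz5 : z ^ 5 = 1 := hprim.pow_eq_one
  have hz1 : z ≠ 1 := hprim.ne_one (by norm_num)
  have nz : ‖z‖ = 1 := norm_eq_one_of_pow_eq_one hz5 (by norm_num)
  have hd : 0 < ‖z - 1‖ := norm_pos_iff.2 (sub_ne_zero.2 hz1)
  have him : z.re * z.re + z.im * z.im = 1 := by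
    have := Complex.normSq_apply z
    rw [Complex.normSq_eq_norm_sq, nz] at this; linarith
  have np1 : ‖z + 1‖ ^ 2 = (3 + Real.sqrt 5) / 2 := by
    rw [← Complex.normSq_eq_norm_sq, Complex.normSq_apply]
    simp
    nlinarith
  set l : ℝ := x / ‖z - 1‖ with hl
  have hlpos : 0 < l := div_pos hx hd
  have c1 : l * ‖z - 1‖ = x := by rw [hl]; field_simp
  have c2 : l * ‖z ^ 2 - 1‖ = y := by
    have : z ^ 2 - 1 = (z + 1) * (z - 1) := by ring
    rw [this, norm_mul]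
    have hpos : 0 ≤ l * (‖z + 1‖ * ‖z - 1‖) := by positivity
    rw [← sq_eq_sq₀ hpos hy.le, hxy]
    have : (l * (‖z + 1‖ * ‖z - 1‖)) ^ 2 = ‖z + 1‖ ^ 2 * (l * ‖z - 1‖) ^ 2 := by ring
    rw [this, c1, np1]
  have nl : ‖(l : ℂ)‖ = l := by rw [Complex.norm_real, Real.norm_of_nonneg hlpos.le]
  have npow : ∀ k : ℕ, ‖z ^ k‖ = 1 := by intro k; rw [norm_pow, nz, one_pow]
  -- distances
  have dx : ∀ (A B w : ℂ), ‖w‖ = 1 → A - B = l * (w * (z - 1)) → ‖A - B‖ = x := by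
    intro A B w hw h
    rw [h, norm_mul, norm_mul, nl, hw, one_mul, c1]
  have dy : ∀ (A B w : ℂ), ‖w‖ = 1 → A - B = l * (w * (z ^ 2 - 1)) → ‖A - B‖ = y := by
    intro A B w hw h
    rw [h, norm_mul, norm_mul, nl, hw, one_mul, c2]
  have nneg : ∀ w : ℂ, ‖w‖ = 1 → ‖-w‖ = 1 := by intro w hw; rw [norm_neg, hw]
  let p0 : ℂ := l * 1
  let p1 : ℂ := l * z
  let p2 : ℂ := l * z ^ 2
  let p3 : ℂ := l * z ^ 3
  let p4 : ℂ := l * z ^ 4
  have n1 : ‖(1 : ℂ)‖ = 1 := by norm_num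
  have d01 : ‖p0 - p1‖ = x := dx _ _ (-1) (nneg _ n1) (by simp only [p0, p1]; ring)
  have d12 : ‖p1 - p2‖ = x := dx _ _ (-z) (nneg _ nz) (by simp only [p1, p2]; ring)
  have d23 : ‖p2 - p3‖ = x := dx _ _ (-z ^ 2) (nneg _ (npow 2)) (by simp only [p2, p3]; ring)
  have d34 : ‖p3 - p4‖ = x := dx _ _ (-z ^ 3) (nneg _ (npow 3)) (by simp only [p3, p4]; ring)
  have d40 : ‖p4 - p0‖ = x := dx _ _ (-z ^ 4) (nneg _ (npow 4))
    (by simp only [p4, p0]; linear_combination (l : ℂ) * hz5)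
  have d02 : ‖p0 - p2‖ = y := dy _ _ (-1) (nneg _ n1) (by simp only [p0, p2]; ring)
  have d13 : ‖p1 - p3‖ = y := dy _ _ (-z) (nneg _ nz) (by simp only [p1, p3]; ring)
  have d24 : ‖p2 - p4‖ = y := dy _ _ (-z ^ 2) (nneg _ (npow 2)) (by simp only [p2, p4]; ring)
  have d30 : ‖p3 - p0‖ = y := dy _ _ (-z ^ 3) (nneg _ (npow 3))
    (by simp only [p3, p0]; linear_combination (l : ℂ) * hz5)
  have d41 : ‖p4 - p1‖ = y := dy _ _ (-z ^ 4) (nneg _ (npow 4))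
    (by simp only [p4, p1]; linear_combination (l : ℂ) * z * hz5)
  -- the ten triples
  have t012 := h1 p0 p1 p2 d01 d12 d02
  have t123 := h1 p1 p2 p3 d12 d23 d13
  have t234 := h1 p2 p3 p4 d23 d34 d24
  have t340 := h1 p3 p4 p0 d34 d40 d30
  have t401 := h1 p4 p0 p1 d40 d01 d41
  have t302 := h2 p3 p0 p2 d30 d02 (by rw [norm_sub_rev]; exact d23)
  have t413 := h2 p4 p1 p3 d41 d13 (by rw [norm_sub_rev]; exact d34)
  have t024 := h2 p0 p2 p4 d02 d24 (by rw [norm_sub_rev]; exact d40)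
  have t130 := h2 p1 p3 p0 d13 d30 (by rw [norm_sub_rev]; exact d01)
  have t241 := h2 p2 p4 p1 d24 d41 (by rw [norm_sub_rev]; exact d12)
  revert t012 t123 t234 t340 t401 t302 t413 t024 t130 t241
  generalize f p0 = x0
  generalize f p1 = x1
  generalize f p2 = x2
  generalize f p3 = x3
  generalize f p4 = x4
  cases x0 <;> cases x1 <;> cases x2 <;> cases x3 <;> cases x4 <;> simp

end Pool.Agent.MeasTri
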