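import Pool.Agent.MeasTri.Circ

set_option autoImplicit false

namespace Pool.Agent.MeasTri

open MeasureTheory Filter Topology Metric Set
open scoped ENNReal

lemma ae_volume_iff_haar {P : Circ → Prop} :
    (∀ᵐ t : Circ, P t) ↔ ∀ᵐ t ∂(AddCircle.haarAddCircle : Measure Circ), P t := by
  rw [AddCircle.volume_eq_smul_haarAddCircle]
  exact Measure.ae_ennreal_smul_measure_iff (by simp [Real.pi_pos])

lemma ae_shift (P : Circ → Prop) (h : ∀ᵐ t : Circ, P t) (s : Circ) : ∀ᵐ t : Circ, P (t + s) :=
  (measurePreserving_add_right (volume : Measure Circ) s).quasiMeasurePreserving.ae h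

/-- a function which changes sign under a translation has Fourier support on a coset -/
lemma fourierCoeff_flip {G : Circ → ℂ} {s : Circ} (h : ∀ᵐ t : Circ, G (t + s) = - G t) (n : ℤ)
    (hn : fourierCoeff G n ≠ 0) : ee s ^ n = -1 := by
  have h' := ae_volume_iff_haar.1 h
  have h1 : fourierCoeff G n = - ((ee s ^ (-n)) * fourierCoeff G n) := by
    conv_lhs => unfold fourierCoeff
    rw [← integral_add_right_eq_self (fun t => fourier (-n) t • G t) s]
    have h2 : ∀ᵐ t ∂(AddCircle.haarAddCircle : Measure Circ),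
        fourier (-n) (t + s) • G (t + s) = (-(ee s ^ (-n))) • (fourier (-n) t • G t) := by
      filter_upwards [h'] with t ht
      rw [ht]
      have : fourier (-n) (t + s) = (fourier (-n) t : ℂ) * ee s ^ (-n) := by
        rw [fourier_apply, fourier_apply, smul_add, AddCircle.toCircle_add, Circle.coe_mul]
        congr 1
        exact ee_zsmul (-n) s
      rw [this]
      simp only [smul_eq_mul]
      ring
    rw [integral_congr_ae h2, integral_smul]
    unfold fourierCoeff
    simp
  have h2 : ee s ^ (-n) = -1 := by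
    have : (1 + ee s ^ (-n)) * fourierCoeff G n = 0 := by linear_combination h1
    rcases mul_eq_zero.1 this with h3 | h3
    · linear_combination h3
    · exact absurd h3 hn
  rw [zpow_neg] at h2
  have := congrArg (fun z => z⁻¹) h2
  simpa using this

/-- some Fourier coefficient of a sign-valued function is nonzero -/
lemma exists_fourierCoeff {G : Circ → ℂ} (hm : Measurable G) (h1 : ∀ t, ‖G t‖ = 1) :
    ∃ n : ℤ, fourierCoeff G n ≠ 0 := by
  by_contra hcon
  push Not at hcon
  have hmem : MemLp G 2 (AddCircle.haarAddCircle : Measure Circ) :=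
    MemLp.of_bound hm.aestronglyMeasurable 1 (Eventually.of_forall fun t => (h1 t).le)
  have hp := tsum_sq_fourierCoeff (hmem.toLp G)
  have hc : ∀ n, fourierCoeff (hmem.toLp G) n = 0 := by
    intro n
    rw [← hcon n]
    exact congrFun (fourierCoeff_congr_ae hmem.coeFn_toLp) n
  simp only [hc] at hp
  have h2 : ∫ t : Circ, ‖(hmem.toLp G : Circ → ℂ) t‖ ^ 2 ∂AddCircle.haarAddCircle = 1 := by
    have : ∀ᵐ t ∂(AddCircle.haarAddCircle : Measure Circ), ‖(hmem.toLp G : Circ → ℂ) t‖ ^ 2 = 1 := by
      filter_upwards [hmem.coeFn_toLp] with t ht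
      rw [ht, h1 t]; norm_num
    rw [integral_congr_ae this]
    simp
  rw [h2] at hp
  simp at hp

/-- the key consequence of forbidding `{P, Q, R}` with `|PQ| = |PR| = x`, `|QR| = x |u - 1|`
at a wild point -/
lemma wild_flip {f : ℂ → Bool} (hA : NullMeasurableSet {z | f z = true} volume) {p : ℂ}
    (hp : IsWild {z | f z = true} p) {x : ℝ} (hx : 0 < x) {u : ℂ}
    (h : Avoid f x (x * ‖u - 1‖) x) (hu : ‖u‖ = 1) {v : ℂ} (hv : ‖v‖ = 1) :
    ¬ (Full {z | f z = true} (p + x * v) ∧ Full {z | f z = true} (p + x * (v * u))) ∧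
    ¬ (Full {z | f z = true}ᶜ (p + x * v) ∧ Full {z | f z = true}ᶜ (p + x * (v * u))) := by
  have hdist : ∀ z : ℂ, ¬ (f (p + z) = f (p + x * v + z) ∧
      f (p + x * v + z) = f (p + x * (v * u) + z)) := by
    intro z
    refine h _ _ _ ?_ ?_ ?_
    · rw [show p + z - (p + x * v + z) = -(x * v) by ring, norm_neg, norm_mul, hv,
        Complex.norm_real, Real.norm_of_nonneg hx.le, mul_one]
    · rw [show p + x * v + z - (p + x * (v * u) + z) = -(x * v * (u - 1)) by ring, norm_neg,
        norm_mul, norm_mul, hv, Complex.norm_real, Real.norm_of_nonneg hx.le, mul_one]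
    · rw [show p + z - (p + x * (v * u) + z) = -(x * (v * u)) by ring, norm_neg, norm_mul,
        norm_mul, hv, hu, Complex.norm_real, Real.norm_of_nonneg hx.le, mul_one, mul_one]
  constructor
  · rintro ⟨h1, h2⟩
    refine hp.2 (full_compl_of_triple hA ?_ h1 h2)
    rintro z ⟨a1, a2, a3⟩
    rw [mem_ofPred_eq] at a1 a2 a3
    exact hdist z ⟨a1.trans a2.symm, a2.trans a3.symm⟩
  · rintro ⟨h1, h2⟩
    refine hp.1 ?_
    have := full_compl_of_triple hA.compl (p := p) ?_ h1 h2
    · rwa [compl_compl] at this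
    · rintro z ⟨a1, a2, a3⟩
      rw [mem_compl_iff, mem_ofPred_eq, Bool.not_eq_true] at a1 a2 a3
      exact hdist z ⟨a1.trans a2.symm, a2.trans a3.symm⟩

/-- there is a wild point around which almost every point of the circle of radius `x` is tame -/
lemma exists_good_wild {A : Set ℂ} (hA : NullMeasurableSet A volume) (h1 : volume A ≠ 0)
    (h2 : volume Aᶜ ≠ 0) {x : ℝ} (hx : 0 < x) :
    ∃ p, IsWild A p ∧ ∀ᵐ t : Circ, ¬ IsWild A (p + x * ee t) := by
  obtain ⟨p0, hp0⟩ := exists_wild hA h1 h2
  by_cases hgood : ∀ᵐ t : Circ, ¬ IsWild A (p0 + x * ee t)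
  · exact ⟨p0, hp0, hgood⟩
  have hnull : volume {p | IsWild A p} = 0 := by
    have := ae_full_or hA
    rw [ae_iff] at this
    refine measure_mono_null ?_ this
    intro p hp
    rw [mem_ofPred_eq] at hp ⊢
    exact not_or.2 hp
  set W := toMeasurable volume {p | IsWild A p} with hW
  have hWm : MeasurableSet W := measurableSet_toMeasurable _ _
  have hW0 : volume W = 0 := by rw [hW, measure_toMeasurable]; exact hnull
  have hsub : {p | IsWild A p} ⊆ W := subset_toMeasurable _ _
  have h3 := ae_two_steps hWm hW0 p0 hx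
  have h4 : ∃ᶠ s in ae (volume : Measure Circ), IsWild A (p0 + x * ee s) := by
    intro hcon
    exact hgood hcon
  obtain ⟨s, hs1, hs2⟩ := (h4.and_eventually h3).exists
  refine ⟨p0 + x * ee s, hs1, ?_⟩
  filter_upwards [hs2] with t ht hcon
  exact ht (hsub hcon)

/-- **Rotation theorem.** If a Lebesgue measurable colouring with both colours of positive measure
avoids equilateral triangles of side `x` and isosceles triangles with legs `x` and apex angle
`arg u`, then `u ^ n = -1` for some odd integer `n`. -/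
theorem rotation_theorem {f : ℂ → Bool} (hA : NullMeasurableSet {z | f z = true} volume)
    (h1 : volume {z | f z = true} ≠ 0) (h2 : volume {z | f z = true}ᶜ ≠ 0) {x : ℝ} (hx : 0 < x)
    (hE : Avoid f x x x) {u : ℂ} (hu : ‖u‖ = 1) (hT : Avoid f x (x * ‖u - 1‖) x) :
    ∃ n : ℤ, Odd n ∧ u ^ n = -1 := by
  classical
  set A : Set ℂ := {z | f z = true} with hAdef
  obtain ⟨p, hp, hgood⟩ := exists_good_wild hA h1 h2 hx
  let G : Circ → ℂ := fun t => if Full A (p + x * ee t) then 1 else -1
  have hGm : Measurable G := by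
    refine Measurable.ite ?_ measurable_const measurable_const
    have : Continuous (fun t : Circ => p + (x : ℂ) * ee t) :=
      continuous_const.add (continuous_const.mul continuous_ee)
    exact this.measurable (measurableSet_full hA)
  have hG1 : ∀ t, ‖G t‖ = 1 := by
    intro t
    simp only [G]
    split_ifs <;> simp
  have flip : ∀ (w : ℂ) (s : Circ), ee s = w → ‖w‖ = 1 → Avoid f x (x * ‖w - 1‖) x →
      ∀ᵐ t : Circ, G (t + s) = - G t := by
    intro w s hs hw hav
    have hshift : ∀ᵐ t : Circ, ¬ IsWild A (p + x * ee (t + s)) :=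
      ae_shift (fun t => ¬ IsWild A (p + x * ee t)) hgood s
    filter_upwards [hgood, hshift] with t ht1 ht2
    have hfl := wild_flip hA hp hx hav hw (v := ee t) (norm_ee t)
    rw [← hs, ← ee_add] at hfl
    simp only [G]
    have t1 : Full A (p + x * ee t) ∨ Full Aᶜ (p + x * ee t) := by
      by_contra hc; exact ht1 (not_or.1 hc)
    have t2 : Full A (p + x * ee (t + s)) ∨ Full Aᶜ (p + x * ee (t + s)) := by
      by_contra hc; exact ht2 (not_or.1 hc)
    by_cases c1 : Full A (p + x * ee t)
    · have c2 : ¬ Full A (p + x * ee (t + s)) := fun c2 => hfl.1 ⟨c1, c2⟩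
      simp [c1, c2]
    · have c1' := t1.resolve_left c1
      have c2 : ¬ Full Aᶜ (p + x * ee (t + s)) := fun c2 => hfl.2 ⟨c1', c2⟩
      have c2' := t2.resolve_right c2
      simp [c1, c2']
  obtain ⟨n, hn⟩ := exists_fourierCoeff hGm hG1
  obtain ⟨s1, hs1⟩ := exists_ee norm_zt
  obtain ⟨s2, hs2⟩ := exists_ee hu
  have e1 := fourierCoeff_flip (flip zt s1 hs1 norm_zt (by
    rw [norm_zt_sub_one, mul_one]; exact hE)) n hn
  have e2 := fourierCoeff_flip (flip u s2 hs2 hu hT) n hn
  rw [hs1] at e1
  rw [hs2] at e2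
  refine ⟨n, ?_, e2⟩
  have hz3 : zt ^ (3 : ℤ) = -1 := by
    have := zt_sq
    rw [show (3 : ℤ) = ((3 : ℕ) : ℤ) by rfl, zpow_natCast]
    linear_combination (zt + 1) * this
  have : ((-1 : ℂ)) ^ n = -1 := by
    rw [← hz3, ← zpow_mul, mul_comm, zpow_mul, e1, hz3]
    norm_num
  rcases Int.even_or_odd n with h | h
  · rw [h.neg_one_zpow] at this
    norm_num at this
  · exact h

end Pool.Agent.MeasTri
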