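import Pool.Agent.MeasTri.RatioTwo
import Pool.Agent.MeasTri.Rot

set_option autoImplicit false

namespace Pool.Agent.MeasTri

open MeasureTheory Filter Topology Set
open scoped Real ENNReal

/-- unit complex numbers at prescribed chord distance from `1` -/
lemma exists_chord {r : ℝ} (h0 : 0 ≤ r) (h2 : r ≤ 2) : ∃ u : ℂ, ‖u‖ = 1 ∧ ‖u - 1‖ = r := by
  have h4 : r ^ 2 ≤ 4 := by nlinarith
  have hnn : 0 ≤ 1 - (1 - r ^ 2 / 2) ^ 2 := by
    have e : 1 - (1 - r ^ 2 / 2) ^ 2 = r ^ 2 * (4 - r ^ 2) / 4 := by ring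
    rw [e]
    exact div_nonneg (mul_nonneg (sq_nonneg r) (by linarith)) (by norm_num)
  have hs := Real.sq_sqrt hnn
  refine ⟨⟨1 - r ^ 2 / 2, Real.sqrt (1 - (1 - r ^ 2 / 2) ^ 2)⟩, ?_, ?_⟩
  · rw [← sq_eq_sq₀ (norm_nonneg _) (by norm_num), ← Complex.normSq_eq_norm_sq, Complex.normSq_apply]
    simp only
    nlinarith
  · rw [← sq_eq_sq₀ (norm_nonneg _) h0, ← Complex.normSq_eq_norm_sq, Complex.normSq_apply]
    simp only [Complex.sub_re, Complex.sub_im, Complex.one_re, Complex.one_im]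
    nlinarith

/-- A measurable colouring with both colours of positive measure cannot avoid equilateral
triangles of two different side lengths. -/
theorem two_sides {f : ℂ → Bool} (hA : NullMeasurableSet {z | f z = true} volume)
    (h1 : volume {z | f z = true} ≠ 0) (h2 : volume {z | f z = true}ᶜ ≠ 0) {x y : ℝ} (hx : 0 < x)
    (hxy : x < y) (hEx : Avoid f x x x) (hEy : Avoid f y y y) : False := by
  have hy : 0 < y := hx.trans hxy
  rcases le_or_gt (2 * x) y with h | h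
  · exact ratio_two hA hx h hEx hEy
  obtain ⟨u, hu, hu1⟩ := exists_chord (r := y / x) (by positivity)
    ((div_le_iff₀ hx).2 h.le)
  obtain ⟨v, hv, hv1⟩ := exists_chord (r := x / y) (by positivity)
    ((div_le_iff₀ hy).2 (by linarith))
  have hTu : Avoid f x (x * ‖u - 1‖) x := by
    rw [hu1, mul_div_cancel₀ _ hx.ne']
    exact avoid_of_avoid_eq hEx hEy hEx
  have hTv : Avoid f y (y * ‖v - 1‖) y := by
    rw [hv1, mul_div_cancel₀ _ hy.ne']
    exact avoid_of_avoid_eq hEy hEx hEy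
  obtain ⟨n, hn, hun⟩ := rotation_theorem hA h1 h2 hx hEx hu hTu
  obtain ⟨m, hm, hvm⟩ := rotation_theorem hA h1 h2 hy hEy hv hTv
  have hprod : ‖u - 1‖ * ‖v - 1‖ = 1 := by
    rw [hu1, hv1]; field_simp
  have hsum := chord_sum hu hv hn hm hun hvm hprod
  rw [hu1, hv1] at hsum
  set r : ℝ := y / x with hr
  have hr1 : 1 < r := (one_lt_div hx).2 hxy
  have hinv : x / y = r⁻¹ := by rw [hr, inv_div]
  rw [hinv] at hsum
  have hr0 : r ≠ 0 := by positivity
  have hri : r * r⁻¹ = 1 := mul_inv_cancel₀ hr0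
  rcases hsum with hs | hs
  · have : (r - r⁻¹) ^ 2 = 0 := by nlinarith
    have h3 : r = r⁻¹ := by
      have := pow_eq_zero_iff (two_ne_zero) |>.1 this
      linarith
    have h4 : r * r = 1 := by
      calc r * r = r * r⁻¹ := by rw [← h3]
        _ = 1 := hri
    nlinarith
  · have h5 : Real.sqrt 5 * Real.sqrt 5 = 5 := Real.mul_self_sqrt (by norm_num)
    have h5' : 2 < Real.sqrt 5 := by
      rw [Real.lt_sqrt (by norm_num)]; norm_num
    -- the quadratic equation for `r ^ 2`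
    have hq : (r ^ 2 - (3 + Real.sqrt 5) / 2) * (r ^ 2 - (3 - Real.sqrt 5) / 2) = 0 := by
      have e : r ^ 2 * (r ^ 2 + r⁻¹ ^ 2) = r ^ 2 * 3 := by rw [hs]
      have e2 : r ^ 2 * r⁻¹ ^ 2 = 1 := by
        rw [← mul_pow, hri, one_pow]
      nlinarith
    rcases mul_eq_zero.1 hq with h6 | h6
    · refine pentagon hx hy ?_ (avoid_of_avoid_eq hEx hEx hEy) (avoid_of_avoid_eq hEy hEy hEx)
      have : y = r * x := by rw [hr]; field_simp
      rw [this, mul_pow]
      have h7 : r ^ 2 = (3 + Real.sqrt 5) / 2 := by linarith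
      rw [h7]
    · have h7 : r ^ 2 = (3 - Real.sqrt 5) / 2 := by linarith
      nlinarith

/-- a colouring with a null colour class contains every triangle -/
lemma null_class {f : ℂ → Bool} {P Q R : ℂ} (t : Bool) (h : volume {z | f z = t} = 0) :
    ¬ Avoid f ‖P - Q‖ ‖Q - R‖ ‖P - R‖ := by
  intro hav
  have hae : ∀ᵐ z : ℂ, f z ≠ t := by
    rw [ae_iff]; simpa using h
  have hsh : ∀ v : ℂ, ∀ᵐ z : ℂ, f (v + z) ≠ t := by
    intro v
    have := (measurePreserving_add_left (volume : Measure ℂ) v).quasiMeasurePreserving.ae hae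
    exact this
  obtain ⟨z, h1, h2, h3⟩ := ((hsh P).and ((hsh Q).and (hsh R))).exists
  refine hav (P + z) (Q + z) (R + z) ?_ ?_ ?_ ⟨?_, ?_⟩
  · rw [show P + z - (Q + z) = P - Q by ring]
  · rw [show Q + z - (R + z) = Q - R by ring]
  · rw [show P + z - (R + z) = P - R by ring]
  · revert h1 h2; cases f (P + z) <;> cases f (Q + z) <;> cases t <;> simp
  · revert h2 h3; cases f (Q + z) <;> cases f (R + z) <;> cases t <;> simp

/-- **Main theorem, complex plane version.** -/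
theorem main_complex {f : ℂ → Bool} (hA : NullMeasurableSet {z | f z = true} volume)
    {P Q R : ℂ} (h1 : P ≠ Q) (h2 : Q ≠ R) (h3 : P ≠ R)
    (hne : ¬ (‖P - Q‖ = ‖Q - R‖ ∧ ‖Q - R‖ = ‖P - R‖)) :
    ¬ Avoid f ‖P - Q‖ ‖Q - R‖ ‖P - R‖ := by
  intro hav
  by_cases c1 : volume {z | f z = true} = 0
  · exact null_class true c1 hav
  by_cases c2 : volume {z | f z = true}ᶜ = 0
  · have : {z | f z = true}ᶜ = {z | f z = false} := by
      ext z
      change ¬ (f z = true) ↔ f z = false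
      simp
    rw [this] at c2
    exact null_class false c2 hav
  have pa : 0 < ‖P - Q‖ := norm_pos_iff.2 (sub_ne_zero.2 h1)
  have pb : 0 < ‖Q - R‖ := norm_pos_iff.2 (sub_ne_zero.2 h2)
  have pc : 0 < ‖P - R‖ := norm_pos_iff.2 (sub_ne_zero.2 h3)
  have hEa : Avoid f ‖P - Q‖ ‖P - Q‖ ‖P - Q‖ := by
    have := avoid_eq_of_avoid (f := f) (A := P - Q) (W := P - R) (sub_ne_zero.2 h1) (by
      rw [show P - Q - (P - R) = -(Q - R) by ring, norm_neg]; exact hav)
    exact this
  have hEb : Avoid f ‖Q - R‖ ‖Q - R‖ ‖Q - R‖ := by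
    have := avoid_eq_of_avoid (f := f) (A := Q - R) (W := Q - P) (sub_ne_zero.2 h2) (by
      rw [show Q - R - (Q - P) = P - R by ring, norm_sub_rev Q P]; exact hav.rot)
    exact this
  have hEc : Avoid f ‖P - R‖ ‖P - R‖ ‖P - R‖ := by
    have := avoid_eq_of_avoid (f := f) (A := P - R) (W := Q - R) (sub_ne_zero.2 h3) (by
      rw [show P - R - (Q - R) = P - Q by ring]; exact hav.rot.rot)
    exact this
  rcases lt_trichotomy ‖P - Q‖ ‖Q - R‖ with h | h | h
  · exact two_sides hA c1 c2 pa h hEa hEb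
  · rcases lt_trichotomy ‖Q - R‖ ‖P - R‖ with h' | h' | h'
    · exact two_sides hA c1 c2 pb h' hEb hEc
    · exact hne ⟨h, h'⟩
    · exact two_sides hA c1 c2 pc h' hEc hEb
  · exact two_sides hA c1 c2 pb h hEb hEa

end Pool.Agent.MeasTri
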