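import Pool.Agent.MeasTri.BesselNum
import Pool.Agent.MeasTri.Circ

set_option autoImplicit false

namespace Pool.Agent.MeasTri

open MeasureTheory Filter Topology Set
open scoped Real SchwartzMap FourierTransform ENNReal

/-- integration over the circle against a plane wave gives the Bessel function -/
lemma circle_integral_im (r : ℝ) : ∫ s : Circ, Real.cos (r * (ee s).im) = 2 * π * J0 r := by
  have h := AddCircle.intervalIntegral_preimage (2 * π) 0 (fun s : Circ => Real.cos (r * (ee s).im))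
  rw [← h, zero_add]
  have him : ∀ u : ℝ, (ee (u : Circ)).im = Real.sin u := by
    intro u; rw [ee_coe, Complex.exp_ofReal_mul_I_im]
  simp only [him]
  have hc : Continuous fun u : ℝ => Real.cos (r * Real.sin u) := by fun_prop
  rw [← intervalIntegral.integral_add_adjacent_intervals (b := π) (hc.intervalIntegrable _ _)
    (hc.intervalIntegrable _ _)]
  have h2 : ∫ u in π..(2 * π), Real.cos (r * Real.sin u) =
      ∫ u in (0 : ℝ)..π, Real.cos (r * Real.sin u) := by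
    have := intervalIntegral.integral_comp_add_right (a := 0) (b := π)
      (fun u => Real.cos (r * Real.sin u)) π
    rw [zero_add, show π + π = 2 * π by ring] at this
    rw [← this]
    congr 1
    ext u
    rw [Real.sin_add_pi, mul_neg, Real.cos_neg]
  rw [h2]
  unfold J0
  have := Real.pi_ne_zero
  field_simp
  ring

lemma circle_integral_inner (r : ℝ) (w : ℂ) :
    ∫ s : Circ, Real.cos (r * inner ℝ (ee s) w) = 2 * π * J0 (r * ‖w‖) := by
  rcases eq_or_ne w 0 with h0 | h0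
  · subst h0
    simp only [inner_zero_right, mul_zero, norm_zero]
    have := circle_integral_im 0
    simp only [zero_mul] at this
    exact this
  obtain ⟨s0, hs0⟩ := exists_ee (s := -Complex.I * (w / ‖w‖)) (by
    rw [norm_mul, norm_neg, Complex.norm_I, one_mul, norm_div, Complex.norm_real, norm_norm]
    exact div_self (norm_ne_zero_iff.2 h0))
  rw [← integral_add_right_eq_self (fun s : Circ => Real.cos (r * inner ℝ (ee s) w)) s0,
    ← circle_integral_im]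
  congr 1
  ext s
  congr 1
  rw [ee_add, hs0, mul_assoc]
  congr 1
  have hw : (‖w‖ : ℂ) ≠ 0 := by exact_mod_cast (norm_ne_zero_iff.2 h0)
  rw [Complex.inner]
  have e1 : w * (starRingEnd ℂ) (ee s * (-Complex.I * (w / ‖w‖))) =
      ‖w‖ * ((starRingEnd ℂ) (ee s) * Complex.I) := by
    simp only [map_mul, map_neg, Complex.conj_I, map_div₀, Complex.conj_ofReal, neg_neg]
    have h3 : (starRingEnd ℂ) w * w = (‖w‖ : ℂ) ^ 2 := by
      rw [mul_comm, Complex.mul_conj, Complex.normSq_eq_norm_sq]; push_cast; ring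
    field_simp
    linear_combination ((starRingEnd ℂ) (ee s)) * h3
  rw [e1]
  simp

/-- Hilbert space of square integrable functions on the plane -/
abbrev HH : Type := Lp ℂ 2 (volume : Measure ℂ)

/-- translation -/
noncomputable def tau (v : ℂ) : HH →ₗᵢ[ℂ] HH :=
  Lp.compMeasurePreservingₗᵢ ℂ (fun x : ℂ => x - v) (measurePreserving_sub_right volume v)

/-- correlation at displacement `v` -/
noncomputable def corr (v : ℂ) (G : HH) : ℝ := (inner ℂ G (tau v G) : ℂ).re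

lemma tau_coe (v : ℂ) (G : HH) : (tau v G : ℂ → ℂ) =ᵐ[volume] fun x => (G : ℂ → ℂ) (x - v) :=
  Lp.coeFn_compMeasurePreserving G (measurePreserving_sub_right volume v)

lemma tau_schwartz (v : ℂ) (φ : 𝓢(ℂ, ℂ)) :
    tau v (φ.toLp 2) = (φ.compSubConstCLM ℂ v).toLp 2 := by
  apply Lp.ext
  have h1 := tau_coe v (φ.toLp 2)
  have h2 := (φ.compSubConstCLM ℂ v).coeFn_toLp 2
  have h3 := φ.coeFn_toLp 2
  have h4 : (fun x => ((φ.toLp 2 : HH) : ℂ → ℂ) (x - v)) =ᵐ[volume] fun x => φ (x - v) :=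
    (measurePreserving_sub_right (volume : Measure ℂ) v).quasiMeasurePreserving.ae_eq_comp h3
  exact (h1.trans h4).trans h2.symm

lemma fourier_shift (v : ℂ) (φ : 𝓢(ℂ, ℂ)) (ξ : ℂ) :
    (𝓕 (φ.compSubConstCLM ℂ v)) ξ = Complex.exp ((-(2 * π * inner ℝ v ξ) : ℝ) * Complex.I) * (𝓕 φ) ξ := by
  rw [SchwartzMap.fourier_coe, SchwartzMap.fourier_coe]
  have h := congrFun (VectorFourier.fourierIntegral_comp_add_right Real.fourierChar
    (volume : Measure ℂ) (innerₗ ℂ) (φ : ℂ → ℂ) (-v)) ξ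
  have e1 : (𝓕 ((φ.compSubConstCLM ℂ v : 𝓢(ℂ, ℂ)) : ℂ → ℂ)) ξ =
      VectorFourier.fourierIntegral Real.fourierChar volume (innerₗ ℂ)
        ((φ : ℂ → ℂ) ∘ fun x => x + -v) ξ := rfl
  rw [e1, h]
  rw [Circle.smul_def, Real.fourierChar_apply]
  simp only [innerₗ_apply_apply, smul_eq_mul]
  congr 2
  rw [inner_neg_left]
  push_cast
  ring

lemma corr_schwartz (v : ℂ) (φ : 𝓢(ℂ, ℂ)) :
    corr v (φ.toLp 2) = ∫ ξ, Real.cos (2 * π * inner ℝ v ξ) * ‖(𝓕 φ) ξ‖ ^ 2 := by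
  unfold corr
  rw [tau_schwartz]
  set ψ : 𝓢(ℂ, ℂ) := φ.compSubConstCLM ℂ v with hψ
  have h1 : inner ℂ (φ.toLp 2 (volume : Measure ℂ)) (ψ.toLp 2 volume) =
      ∫ ξ, inner ℂ ((𝓕 φ) ξ) ((𝓕 ψ) ξ) := by
    have a := SchwartzMap.inner_toL2_toL2_eq φ ψ (volume : Measure ℂ)
    have b := SchwartzMap.integral_inner_fourier_fourier φ ψ
    exact a.trans b.symm
  rw [h1]
  have hint : Integrable (fun ξ => inner ℂ ((𝓕 φ) ξ) ((𝓕 ψ) ξ)) := by
    refine (L2.integrable_inner (𝕜 := ℂ) ((𝓕 φ).toLp 2 (volume : Measure ℂ))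
      ((𝓕 ψ).toLp 2 (volume : Measure ℂ))).congr ?_
    filter_upwards [(𝓕 φ).coeFn_toLp 2 volume, (𝓕 ψ).coeFn_toLp 2 volume] with x h1 h2
    rw [h1, h2]
  have h2 := integral_re hint
  have h3 : (∫ ξ, inner ℂ ((𝓕 φ) ξ) ((𝓕 ψ) ξ)).re = ∫ ξ, (inner ℂ ((𝓕 φ) ξ) ((𝓕 ψ) ξ)).re :=
    h2.symm
  rw [h3]
  congr 1
  ext ξ
  rw [hψ, fourier_shift]
  generalize (𝓕 φ) ξ = a
  have e1 : inner ℂ a (Complex.exp ((-(2 * π * inner ℝ v ξ) : ℝ) * Complex.I) * a) =
      Complex.exp ((-(2 * π * inner ℝ v ξ) : ℝ) * Complex.I) * ((‖a‖ ^ 2 : ℝ) : ℂ) := by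
    rw [RCLike.inner_apply]
    have : a * (starRingEnd ℂ) a = ((‖a‖ ^ 2 : ℝ) : ℂ) := by
      rw [Complex.mul_conj, Complex.normSq_eq_norm_sq]
    linear_combination (Complex.exp ((-(2 * π * inner ℝ v ξ) : ℝ) * Complex.I)) * this
  rw [e1, Complex.re_mul_ofReal, Complex.exp_ofReal_mul_I_re, Real.cos_neg]

lemma circ_corr (φ : 𝓢(ℂ, ℂ)) (a : ℝ) :
    ∫ s : Circ, corr ((a : ℂ) * ee s) (φ.toLp 2) =
      ∫ ξ, (2 * π * J0 (2 * π * a * ‖ξ‖)) * ‖(𝓕 φ) ξ‖ ^ 2 := by
  simp only [corr_schwartz]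
  have hin : ∀ (s : Circ) (ξ : ℂ), (2 * π * inner ℝ ((a : ℂ) * ee s) ξ : ℝ) =
      (2 * π * a) * inner ℝ (ee s) ξ := by
    intro s ξ
    have : ((a : ℂ) * ee s) = a • ee s := by rw [Complex.real_smul]
    rw [this, inner_smul_left]
    simp only [conj_trivial]
    ring
  simp only [hin]
  have hL2 : Integrable (fun ξ : ℂ => ‖(𝓕 φ) ξ‖ ^ 2) := by
    have := (memLp_two_iff_integrable_sq_norm ((𝓕 φ).memLp 2 (volume : Measure ℂ)).1).1
      ((𝓕 φ).memLp 2 (volume : Measure ℂ))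
    exact this
  have hint : Integrable (Function.uncurry fun (s : Circ) (ξ : ℂ) =>
      Real.cos (2 * π * a * inner ℝ (ee s) ξ) * ‖(𝓕 φ) ξ‖ ^ 2)
      ((volume : Measure Circ).prod (volume : Measure ℂ)) := by
    have h1 : Integrable (fun q : Circ × ℂ => (1 : ℝ) * ‖(𝓕 φ) q.2‖ ^ 2)
        ((volume : Measure Circ).prod (volume : Measure ℂ)) :=
      Integrable.mul_prod (f := fun _ : Circ => (1 : ℝ)) (integrable_const 1) hL2
    refine h1.mono ?_ ?_
    · have hc1 : Continuous fun q : Circ × ℂ => Real.cos (2 * π * a * inner ℝ (ee q.1) q.2) :=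
        Real.continuous_cos.comp (continuous_const.mul
          ((continuous_ee.comp continuous_fst).inner continuous_snd))
      have hc2 : Continuous fun q : Circ × ℂ => ‖(𝓕 φ) q.2‖ ^ 2 :=
        (((𝓕 φ).continuous.comp continuous_snd).norm).pow 2
      exact (hc1.mul hc2).aestronglyMeasurable
    · refine Eventually.of_forall fun q => ?_
      simp only [Function.uncurry, one_mul]
      rw [norm_mul]
      exact mul_le_of_le_one_left (norm_nonneg _) (Real.abs_cos_le_one _)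
  rw [integral_integral_swap hint]
  congr 1
  ext ξ
  rw [integral_mul_const, circle_integral_inner]

lemma norm_sq_schwartz (φ : 𝓢(ℂ, ℂ)) : ‖(φ.toLp 2 (volume : Measure ℂ))‖ ^ 2 =
    ∫ ξ, ‖(𝓕 φ) ξ‖ ^ 2 := by
  have h1 := corr_schwartz 0 φ
  have h2 : corr 0 (φ.toLp 2) = ‖(φ.toLp 2 (volume : Measure ℂ))‖ ^ 2 := by
    unfold corr
    have : tau 0 (φ.toLp 2) = φ.toLp 2 := by
      rw [tau_schwartz]; simp
    rw [this]
    exact inner_self_eq_norm_sq (𝕜 := ℂ) (φ.toLp 2 (volume : Measure ℂ))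
  rw [← h2, h1]
  simp

/-- the quadratic form -/
noncomputable def QQ (a b : ℝ) (G : HH) : ℝ :=
  2 * π * 0.666 * ‖G‖ ^ 2 + (∫ s : Circ, corr ((a : ℂ) * ee s) G) +
    ∫ s : Circ, corr ((b : ℂ) * ee s) G

lemma integrable_J0_mul (φ : 𝓢(ℂ, ℂ)) (a : ℝ) :
    Integrable fun ξ => (2 * π * J0 (2 * π * a * ‖ξ‖)) * ‖(𝓕 φ) ξ‖ ^ 2 := by
  have hL2 : Integrable (fun ξ : ℂ => ‖(𝓕 φ) ξ‖ ^ 2) :=
    (memLp_two_iff_integrable_sq_norm ((𝓕 φ).memLp 2 (volume : Measure ℂ)).1).1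
      ((𝓕 φ).memLp 2 (volume : Measure ℂ))
  have hJc : Continuous J0 := by
    rw [continuous_iff_continuousAt]
    exact fun t => (hasDerivAt_J0 t).continuousAt
  have hJb : ∀ t, |J0 t| ≤ 1 := by
    intro t
    unfold J0
    have h1 : ‖∫ u in (0 : ℝ)..π, Real.cos (t * Real.sin u)‖ ≤ 1 * |π - 0| :=
      intervalIntegral.norm_integral_le_of_norm_le_const fun u _ => Real.abs_cos_le_one _
    rw [sub_zero, abs_of_pos Real.pi_pos, one_mul, Real.norm_eq_abs] at h1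
    rw [abs_mul, abs_of_pos (by positivity : 0 < 1 / π)]
    calc 1 / π * |∫ u in (0 : ℝ)..π, Real.cos (t * Real.sin u)| ≤ 1 / π * π :=
          mul_le_mul_of_nonneg_left h1 (by positivity)
      _ = 1 := by have := Real.pi_ne_zero; field_simp
  refine Integrable.mono (hL2.const_mul (2 * π)) ?_ ?_
  · refine Continuous.aestronglyMeasurable ?_
    have hc1 : Continuous fun ξ : ℂ => J0 (2 * π * a * ‖ξ‖) :=
      hJc.comp (continuous_const.mul continuous_norm)
    have hc2 : Continuous fun ξ : ℂ => ‖(𝓕 φ) ξ‖ ^ 2 := ((𝓕 φ).continuous.norm).pow 2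
    exact (continuous_const.mul hc1).mul hc2
  · refine Eventually.of_forall fun ξ => ?_
    generalize ‖(𝓕 φ) ξ‖ = A
    rw [show 2 * π * J0 (2 * π * a * ‖ξ‖) * A ^ 2 =
      J0 (2 * π * a * ‖ξ‖) * (2 * π * A ^ 2) by ring, norm_mul]
    exact mul_le_of_le_one_left (norm_nonneg _) (hJb _)

lemma QQ_schwartz (φ : 𝓢(ℂ, ℂ)) {a b : ℝ} (ha : 0 ≤ a) (hab : 2 * a ≤ b) :
    0 ≤ QQ a b (φ.toLp 2) := by
  unfold QQ
  rw [circ_corr φ a, circ_corr φ b, norm_sq_schwartz]
  have hL2 : Integrable (fun ξ : ℂ => ‖(𝓕 φ) ξ‖ ^ 2) :=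
    (memLp_two_iff_integrable_sq_norm ((𝓕 φ).memLp 2 (volume : Measure ℂ)).1).1
      ((𝓕 φ).memLp 2 (volume : Measure ℂ))
  have h1 : 2 * π * 0.666 * ∫ ξ, ‖(𝓕 φ) ξ‖ ^ 2 = ∫ ξ, 2 * π * 0.666 * ‖(𝓕 φ) ξ‖ ^ 2 :=
    (integral_const_mul _ _).symm
  have hI1 : Integrable (fun ξ => 2 * π * 0.666 * ‖(𝓕 φ) ξ‖ ^ 2) := hL2.const_mul _
  have hI2 := integrable_J0_mul φ a
  have hI3 := integrable_J0_mul φ b
  have hI12 : Integrable (fun ξ => 2 * π * 0.666 * ‖(𝓕 φ) ξ‖ ^ 2 +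
    2 * π * J0 (2 * π * a * ‖ξ‖) * ‖(𝓕 φ) ξ‖ ^ 2) := hI1.add hI2
  rw [h1, ← integral_add hI1 hI2, ← integral_add hI12 hI3]
  refine integral_nonneg fun ξ => ?_
  have h2 := bessel_sum (s := 2 * π * a * ‖ξ‖) (t := 2 * π * b * ‖ξ‖) (by positivity) (by
    have : 0 ≤ 2 * π * ‖ξ‖ := by positivity
    nlinarith)
  have h3 : 2 * π * 0.666 * ‖(𝓕 φ) ξ‖ ^ 2 + 2 * π * J0 (2 * π * a * ‖ξ‖) * ‖(𝓕 φ) ξ‖ ^ 2 +
      2 * π * J0 (2 * π * b * ‖ξ‖) * ‖(𝓕 φ) ξ‖ ^ 2 =
      2 * π * (0.666 + J0 (2 * π * a * ‖ξ‖) + J0 (2 * π * b * ‖ξ‖)) * ‖(𝓕 φ) ξ‖ ^ 2 := by ring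
  change 0 ≤ 2 * π * 0.666 * ‖(𝓕 φ) ξ‖ ^ 2 + 2 * π * J0 (2 * π * a * ‖ξ‖) * ‖(𝓕 φ) ξ‖ ^ 2 +
      2 * π * J0 (2 * π * b * ‖ξ‖) * ‖(𝓕 φ) ξ‖ ^ 2
  rw [h3]
  positivity

/-! ### Density -/

lemma continuous_tau : Continuous fun q : ℂ × HH => tau q.1 q.2 := by
  have hg : Continuous fun q : ℂ × HH => (⟨fun x : ℂ => x - q.1, by fun_prop⟩ : C(ℂ, ℂ)) := by
    refine ContinuousMap.continuous_of_continuous_uncurry _ ?_
    change Continuous fun p : (ℂ × HH) × ℂ => p.2 - p.1.1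
    fun_prop
  exact Continuous.compMeasurePreservingLp (f := fun q : ℂ × HH => q.2) continuous_snd hg
    (fun q => measurePreserving_sub_right volume q.1) (by norm_num)

lemma continuous_corr : Continuous fun q : ℂ × HH => corr q.1 q.2 := by
  unfold corr
  exact Complex.continuous_re.comp (continuous_snd.inner continuous_tau)

lemma abs_corr_le (v : ℂ) (G : HH) : |corr v G| ≤ ‖G‖ ^ 2 := by
  unfold corr
  refine (Complex.abs_re_le_norm _).trans ?_
  refine (norm_inner_le_norm (𝕜 := ℂ) G (tau v G)).trans ?_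
  rw [(tau v).norm_map]
  exact le_of_eq (sq ‖G‖).symm

attribute [irreducible] corr

lemma continuous_circ_corr (a : ℝ) : Continuous fun G : HH => ∫ s : Circ, corr ((a : ℂ) * ee s) G := by
  rw [continuous_iff_continuousAt]
  intro G0
  refine continuousAt_of_dominated (bound := fun _ => (‖G0‖ + 1) ^ 2) ?_ ?_ ?_ ?_
  · refine Eventually.of_forall fun G => ?_
    have : Continuous fun s : Circ => corr ((a : ℂ) * ee s) G :=
      continuous_corr.comp ((continuous_const.mul continuous_ee).prodMk continuous_const)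
    exact this.aestronglyMeasurable
  · have h1 : ∀ᶠ G : HH in 𝓝 G0, ‖G‖ < ‖G0‖ + 1 :=
      continuous_norm.continuousAt.eventually_lt continuousAt_const (by simp)
    filter_upwards [h1] with G hG
    refine Eventually.of_forall fun s => ?_
    refine (abs_corr_le _ _).trans ?_
    gcongr
  · exact integrable_const _
  · refine Eventually.of_forall fun s => ?_
    have : Continuous fun G : HH => corr ((a : ℂ) * ee s) G :=
      continuous_corr.comp (continuous_const.prodMk continuous_id)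
    exact this.continuousAt

/-- positivity of the quadratic form on the whole Hilbert space -/
theorem QQ_nonneg {a b : ℝ} (ha : 0 ≤ a) (hab : 2 * a ≤ b) (G : HH) : 0 ≤ QQ a b G := by
  have hd : DenseRange (SchwartzMap.toLpCLM ℝ ℂ 2 (volume : Measure ℂ) (E := ℂ)) :=
    SchwartzMap.denseRange_toLpCLM (by norm_num)
  refine hd.induction_on (p := fun G => 0 ≤ QQ a b G) G ?_ ?_
  · refine isClosed_le continuous_const ?_
    unfold QQ
    exact ((continuous_const.mul (continuous_norm.pow 2)).add (continuous_circ_corr a)).add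
      (continuous_circ_corr b)
  · intro φ
    exact QQ_schwartz φ ha hab

/-- the correlation of a real valued function -/
lemma corr_def' (v : ℂ) (G : HH) : corr v G = (inner ℂ G (tau v G) : ℂ).re := by
  unfold corr; rfl

lemma corr_real {g : ℂ → ℝ} (hg : MemLp (fun z => (g z : ℂ)) 2 (volume : Measure ℂ)) (v : ℂ) :
    corr v hg.toLp = ∫ z, g z * g (z - v) := by
  rw [corr_def', L2.inner_def]
  have h1 := hg.coeFn_toLp
  have h2 := tau_coe v hg.toLp
  have h3 : (fun x => ((hg.toLp : HH) : ℂ → ℂ) (x - v)) =ᵐ[volume] fun x => (g (x - v) : ℂ) :=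
    (measurePreserving_sub_right (volume : Measure ℂ) v).quasiMeasurePreserving.ae_eq_comp h1
  have h4 : ∫ z, inner ℂ ((hg.toLp : HH) z) ((tau v hg.toLp : HH) z) =
      ∫ z, ((g z * g (z - v) : ℝ) : ℂ) := by
    refine integral_congr_ae ?_
    filter_upwards [h1, h2, h3] with z z1 z2 z3
    rw [z2, z3, z1, RCLike.inner_apply]
    simp
    ring
  rw [h4, integral_complex_ofReal, Complex.ofReal_re]

end Pool.Agent.MeasTri
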