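import Pool.Agent.MeasTri.PosDef

set_option autoImplicit false

namespace Pool.Agent.MeasTri

open MeasureTheory Filter Topology Set
open scoped Real ENNReal

/-- the sign function of a colouring -/
noncomputable def sgn (f : ℂ → Bool) (z : ℂ) : ℝ := if f z = true then 1 else -1

/-- the truncated sign function -/
noncomputable def gR (f : ℂ → Bool) (R : ℝ) : ℂ → ℝ := (Metric.closedBall (0 : ℂ) R).indicator (sgn f)

lemma sgn_cases (f : ℂ → Bool) (z : ℂ) : sgn f z = 1 ∨ sgn f z = -1 := by
  unfold sgn; split_ifs <;> simp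

lemma gR_mem {f : ℂ → Bool} {R : ℝ} {z : ℂ} (h : ‖z‖ ≤ R) : gR f R z = sgn f z := by
  unfold gR
  rw [indicator_of_mem]
  rwa [mem_closedBall_zero_iff]

lemma gR_notMem {f : ℂ → Bool} {R : ℝ} {z : ℂ} (h : R < ‖z‖) : gR f R z = 0 := by
  unfold gR
  rw [indicator_of_notMem]
  rw [mem_closedBall_zero_iff]
  linarith

lemma abs_gR_le (f : ℂ → Bool) (R : ℝ) (z : ℂ) : |gR f R z| ≤ 1 := by
  rcases le_or_gt ‖z‖ R with h | h
  · rw [gR_mem h]
    rcases sgn_cases f z with h1 | h1 <;> rw [h1] <;> norm_num
  · rw [gR_notMem h]; norm_num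

lemma aemeas_sgn {f : ℂ → Bool} (hA : NullMeasurableSet {z | f z = true} volume) :
    AEMeasurable (sgn f) (volume : Measure ℂ) := by
  classical
  have h1 : AEMeasurable (({z | f z = true}).indicator (fun _ => (2 : ℝ))) (volume : Measure ℂ) :=
    aemeasurable_const.indicator₀ hA
  have h2 : sgn f = fun z => ({z | f z = true}).indicator (fun _ => (2 : ℝ)) z - 1 := by
    ext z
    unfold sgn
    by_cases h : f z = true
    · rw [if_pos h, indicator_of_mem (show z ∈ {z | f z = true} from h)]; norm_num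
    · rw [if_neg h, indicator_of_notMem (show z ∉ {z | f z = true} from h)]; norm_num
  rw [h2]
  exact h1.sub_const 1

lemma aemeas_gR {f : ℂ → Bool} (hA : NullMeasurableSet {z | f z = true} volume) (R : ℝ) :
    AEMeasurable (gR f R) (volume : Measure ℂ) :=
  (aemeas_sgn hA).indicator measurableSet_closedBall

lemma memLp_gR {f : ℂ → Bool} (hA : NullMeasurableSet {z | f z = true} volume) (R : ℝ) (p : ℝ≥0∞) :
    MemLp (gR f R) p (volume : Measure ℂ) := by
  unfold gR
  rw [memLp_indicator_iff_restrict Metric.isClosed_closedBall.measurableSet]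
  have : IsFiniteMeasure ((volume : Measure ℂ).restrict (Metric.closedBall 0 R)) :=
    ⟨by rw [Measure.restrict_apply_univ]; exact measure_closedBall_lt_top⟩
  refine MemLp.of_bound (aemeas_sgn hA).restrict.aestronglyMeasurable 1 (Eventually.of_forall ?_)
  intro z
  rcases sgn_cases f z with h1 | h1 <;> rw [h1] <;> norm_num

lemma memLp_gR_complex {f : ℂ → Bool} (hA : NullMeasurableSet {z | f z = true} volume) (R : ℝ) :
    MemLp (fun z => (gR f R z : ℂ)) 2 (volume : Measure ℂ) := (memLp_gR hA R 2).ofReal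

/-- integrability of products of two translates -/
lemma integrable_prod_gR {f : ℂ → Bool} (hA : NullMeasurableSet {z | f z = true} volume) (R : ℝ)
    (v w : ℂ) : Integrable (fun z => gR f R (z - v) * gR f R (z - w)) := by
  have h1 : ∀ v : ℂ, MemLp (fun z => gR f R (z - v)) 2 (volume : Measure ℂ) := fun v =>
    (memLp_gR hA R 2).comp_measurePreserving (measurePreserving_sub_right volume v)
  exact (h1 v).integrable_mul (h1 w)

/-- three signs that are not all equal -/
lemma sgn_sum {f : ℂ → Bool} {x y z : ℂ} (h : ¬ (f x = f y ∧ f y = f z)) :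
    sgn f x * sgn f y + sgn f x * sgn f z + sgn f y * sgn f z = -1 := by
  unfold sgn
  revert h
  cases f x <;> cases f y <;> cases f z <;> norm_num

lemma triple_bound {f : ℂ → Bool} {a R : ℝ} (ha : 0 < a) (hE : Avoid f a a a)
    {u : ℂ} (hu : ‖u‖ = 1) (z : ℂ) :
    gR f R z * gR f R (z - a * u) + gR f R z * gR f R (z - a * (zt * u)) +
      gR f R (z - a * u) * gR f R (z - a * (zt * u)) ≤
    3 * (Metric.closedBall (0 : ℂ) (R + a)).indicator (fun _ => (1 : ℝ)) z -
      4 * (Metric.closedBall (0 : ℂ) (R - a)).indicator (fun _ => (1 : ℝ)) z := by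
  have na : ‖(a : ℂ) * u‖ = a := by
    rw [norm_mul, hu, Complex.norm_real, Real.norm_of_nonneg ha.le, mul_one]
  have naz : ‖(a : ℂ) * (zt * u)‖ = a := by
    rw [norm_mul, norm_mul, norm_zt, hu, Complex.norm_real, Real.norm_of_nonneg ha.le, mul_one,
      mul_one]
  have nd : ‖(z - a * u) - (z - a * (zt * u))‖ = a := by
    rw [show (z - a * u) - (z - a * (zt * u)) = a * ((zt - 1) * u) by ring, norm_mul, norm_mul,
      norm_zt_sub_one, hu, Complex.norm_real, Real.norm_of_nonneg ha.le, mul_one, mul_one]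
  rcases le_or_gt ‖z‖ (R - a) with h1 | h1
  · -- everything inside
    have i1 : ‖z - a * u‖ ≤ R := by
      have := norm_sub_le z (a * u); rw [na] at this; linarith
    have i2 : ‖z - a * (zt * u)‖ ≤ R := by
      have := norm_sub_le z (a * (zt * u)); rw [naz] at this; linarith
    rw [gR_mem (by linarith), gR_mem i1, gR_mem i2,
      indicator_of_mem (by rw [mem_closedBall_zero_iff]; linarith),
      indicator_of_mem (by rw [mem_closedBall_zero_iff]; linarith)]
    rw [sgn_sum]
    · norm_num
    · refine hE _ _ _ ?_ nd ?_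
      · rw [sub_sub_cancel]; exact na
      · rw [sub_sub_cancel]; exact naz
  · rcases le_or_gt ‖z‖ (R + a) with h2 | h2
    · rw [indicator_of_mem (by rw [mem_closedBall_zero_iff]; linarith),
        indicator_of_notMem (by rw [mem_closedBall_zero_iff]; linarith)]
      have b1 := abs_gR_le f R z
      have b2 := abs_gR_le f R (z - a * u)
      have b3 := abs_gR_le f R (z - a * (zt * u))
      have m : ∀ x y : ℝ, |x| ≤ 1 → |y| ≤ 1 → x * y ≤ 1 := by
        intro x y hx hy
        have : |x * y| ≤ 1 := by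
          rw [abs_mul]; exact mul_le_one₀ hx (abs_nonneg _) hy
        exact (le_abs_self _).trans this
      have := m _ _ b1 b2
      have := m _ _ b1 b3
      have := m _ _ b2 b3
      linarith
    · have o1 : R < ‖z - a * u‖ := by
        have := norm_sub_norm_le z (a * u); rw [na] at this; linarith
      rw [gR_notMem (z := z) (by linarith), gR_notMem o1,
        indicator_of_notMem (by rw [mem_closedBall_zero_iff]; linarith),
        indicator_of_notMem (by rw [mem_closedBall_zero_iff]; linarith)]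
      norm_num

lemma tau_zero (G : HH) : tau 0 G = G := by
  apply Lp.ext
  filter_upwards [tau_coe 0 G] with x hx
  rw [hx, sub_zero]

lemma corr_zero (G : HH) : corr 0 G = ‖G‖ ^ 2 := by
  rw [corr_def', tau_zero]
  exact inner_self_eq_norm_sq (𝕜 := ℂ) G

lemma integral_ball (r : ℝ) (hr : 0 ≤ r) :
    ∫ z, (Metric.closedBall (0 : ℂ) r).indicator (fun _ => (1 : ℝ)) z = π * r ^ 2 := by
  rw [integral_indicator measurableSet_closedBall]
  simp only [integral_const, smul_eq_mul, mul_one, MeasurableSet.univ, measureReal_restrict_apply,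
    univ_inter]
  rw [vol_ball_real 0 hr]; ring

lemma integrable_ball (r : ℝ) :
    Integrable ((Metric.closedBall (0 : ℂ) r).indicator (fun _ => (1 : ℝ))) := by
  rw [integrable_indicator_iff measurableSet_closedBall]
  exact integrableOn_const (measure_closedBall_lt_top.ne)

/-- integrating a bound over all directions -/
lemma circ_avg (G : HH) (a C : ℝ)
    (key : ∀ u : ℂ, ‖u‖ = 1 →
      corr (a * u) G + corr (a * (zt * u)) G + corr (a * (zt ^ 2 * u)) G ≤ C) :
    3 * ∫ s : Circ, corr ((a : ℂ) * ee s) G ≤ 2 * π * C := by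
  obtain ⟨s1, hs1⟩ := exists_ee norm_zt
  have hcont : Continuous fun s : Circ => corr ((a : ℂ) * ee s) G :=
    continuous_corr.comp ((continuous_const.mul continuous_ee).prodMk continuous_const)
  have hint : Integrable (fun s : Circ => corr ((a : ℂ) * ee s) G) := by
    refine Integrable.of_bound hcont.aestronglyMeasurable (‖G‖ ^ 2) ?_
    exact Eventually.of_forall fun s => abs_corr_le _ _
  have e1 : ∀ s : Circ, corr ((a : ℂ) * (zt * ee s)) G = corr ((a : ℂ) * ee (s + s1)) G := by
    intro s
    rw [ee_add, hs1, mul_comm zt]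
  have e2 : ∀ s : Circ, corr ((a : ℂ) * (zt ^ 2 * ee s)) G =
      corr ((a : ℂ) * ee (s + (s1 + s1))) G := by
    intro s
    rw [ee_add, ee_add, hs1, mul_comm (zt ^ 2), sq]
  have r1 : ∫ s : Circ, corr ((a : ℂ) * ee (s + s1)) G = ∫ s : Circ, corr ((a : ℂ) * ee s) G :=
    integral_add_right_eq_self (fun s : Circ => corr ((a : ℂ) * ee s) G) s1
  have r2 : ∫ s : Circ, corr ((a : ℂ) * ee (s + (s1 + s1))) G =
      ∫ s : Circ, corr ((a : ℂ) * ee s) G :=
    integral_add_right_eq_self (fun s : Circ => corr ((a : ℂ) * ee s) G) (s1 + s1)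
  have hint1 : Integrable (fun s : Circ => corr ((a : ℂ) * ee (s + s1)) G) :=
    hint.comp_add_right s1
  have hint2 : Integrable (fun s : Circ => corr ((a : ℂ) * ee (s + (s1 + s1))) G) :=
    hint.comp_add_right (s1 + s1)
  have hint01 : Integrable (fun s : Circ => corr ((a : ℂ) * ee s) G +
      corr ((a : ℂ) * ee (s + s1)) G) := hint.add hint1
  have hint012 : Integrable (fun s : Circ => corr ((a : ℂ) * ee s) G +
      corr ((a : ℂ) * ee (s + s1)) G + corr ((a : ℂ) * ee (s + (s1 + s1))) G) := hint01.add hint2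
  have e3 : 3 * ∫ s : Circ, corr ((a : ℂ) * ee s) G = ∫ s : Circ, (corr ((a : ℂ) * ee s) G +
      corr ((a : ℂ) * ee (s + s1)) G + corr ((a : ℂ) * ee (s + (s1 + s1))) G) := by
    rw [integral_add hint01 hint2, integral_add hint hint1, r1, r2]; ring
  rw [e3]
  have hle : ∀ s : Circ, corr ((a : ℂ) * ee s) G +
      corr ((a : ℂ) * ee (s + s1)) G + corr ((a : ℂ) * ee (s + (s1 + s1))) G ≤ C := by
    intro s
    have := key (ee s) (norm_ee s)
    rwa [e1, e2] at this
  refine (integral_mono hint012 (integrable_const C) hle).trans ?_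
  rw [integral_const]
  simp only [smul_eq_mul]
  apply le_of_eq
  congr 1
  unfold Measure.real
  rw [AddCircle.measure_univ]
  exact ENNReal.toReal_ofReal (by positivity)

lemma dir_bound {f : ℂ → Bool} (hA : NullMeasurableSet {z | f z = true} volume) {a R : ℝ}
    (ha : 0 < a) (haR : a ≤ R) (hE : Avoid f a a a) {G : HH}
    (hcorr : ∀ v, corr v G = ∫ z, gR f R z * gR f R (z - v)) (u : ℂ) (hu : ‖u‖ = 1) :
    corr (a * u) G + corr (a * (zt * u)) G + corr (a * (zt ^ 2 * u)) G ≤
      π * (-R ^ 2 + 14 * a * R - a ^ 2) := by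
  have i1 : Integrable (fun z => gR f R z * gR f R (z - a * u)) := by
    simpa using integrable_prod_gR hA R 0 (a * u)
  have i2 : Integrable (fun z => gR f R z * gR f R (z - a * (zt * u))) := by
    simpa using integrable_prod_gR hA R 0 (a * (zt * u))
  have i3 := integrable_prod_gR hA R (a * u) (a * (zt * u))
  have i12 : Integrable (fun z => gR f R z * gR f R (z - a * u) +
    gR f R z * gR f R (z - a * (zt * u))) := i1.add i2
  have i123 : Integrable (fun z => gR f R z * gR f R (z - a * u) +
    gR f R z * gR f R (z - a * (zt * u)) + gR f R (z - a * u) * gR f R (z - a * (zt * u))) :=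
    i12.add i3
  have h3 : corr (a * (zt ^ 2 * u)) G = ∫ z, gR f R (z - a * u) * gR f R (z - a * (zt * u)) := by
    rw [hcorr, ← integral_sub_right_eq_self
      (fun z => gR f R z * gR f R (z - a * (zt ^ 2 * u))) (a * u)]
    congr 1
    ext z
    have : z - a * u - a * (zt ^ 2 * u) = z - a * (zt * u) := by
      rw [zt_sq]; ring
    rw [this]
  rw [h3, hcorr, hcorr, ← integral_add i1 i2, ← integral_add i12 i3]
  have j1 := (integrable_ball (R + a)).const_mul 3
  have j2 := (integrable_ball (R - a)).const_mul 4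
  have j12 : Integrable (fun z => 3 * (Metric.closedBall (0 : ℂ) (R + a)).indicator
      (fun _ => (1 : ℝ)) z - 4 * (Metric.closedBall (0 : ℂ) (R - a)).indicator
      (fun _ => (1 : ℝ)) z) := j1.sub j2
  refine (integral_mono i123 j12 (fun z => triple_bound ha hE hu z)).trans ?_
  rw [integral_sub j1 j2, integral_const_mul, integral_const_mul, integral_ball _ (by linarith),
    integral_ball _ (by linarith)]
  apply le_of_eq
  ring

/-- the average correlation at distance `a` is at most about `-1/3` -/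
lemma circ_bound {f : ℂ → Bool} (hA : NullMeasurableSet {z | f z = true} volume) {a R : ℝ}
    (ha : 0 < a) (haR : a ≤ R) (hE : Avoid f a a a) :
    3 * ∫ s : Circ, corr ((a : ℂ) * ee s) (memLp_gR_complex hA R).toLp ≤
      2 * π * (π * (-R ^ 2 + 14 * a * R - a ^ 2)) :=
  circ_avg _ a _ (fun u hu => dir_bound hA ha haR hE (corr_real (memLp_gR_complex hA R)) u hu)

/-- **No measurable colouring avoids equilateral triangles of two sides with ratio at least two.** -/
theorem ratio_two {f : ℂ → Bool} (hA : NullMeasurableSet {z | f z = true} volume) {a b : ℝ}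
    (ha : 0 < a) (hab : 2 * a ≤ b) (hEa : Avoid f a a a) (hEb : Avoid f b b b) : False := by
  have hb : 0 < b := by linarith
  set R : ℝ := 8000 * (a + b) with hR
  have haR : a ≤ R := by rw [hR]; nlinarith
  have hbR : b ≤ R := by rw [hR]; nlinarith
  have hQ := QQ_nonneg ha.le hab (memLp_gR_complex hA R).toLp
  have h1 := circ_bound hA ha haR hEa
  have h2 := circ_bound hA hb hbR hEb
  have hnorm : ‖(memLp_gR_complex hA R).toLp‖ ^ 2 = π * R ^ 2 := by
    rw [← corr_zero, corr_real, ← integral_ball R (by rw [hR]; positivity)]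
    congr 1
    ext z
    rw [sub_zero]
    rcases le_or_gt ‖z‖ R with h | h
    · rw [gR_mem h, indicator_of_mem (by rw [mem_closedBall_zero_iff]; exact h)]
      rcases sgn_cases f z with h1 | h1 <;> rw [h1] <;> norm_num
    · rw [gR_notMem h, indicator_of_notMem (by rw [mem_closedBall_zero_iff]; linarith)]
      norm_num
  unfold QQ at hQ
  rw [hnorm] at hQ
  have hpi := Real.pi_pos
  -- combine
  have h3 : 0 ≤ 2 * π * 0.666 * (π * R ^ 2) + (2 * π * (π * (-R ^ 2 + 14 * a * R - a ^ 2))) / 3 +
      (2 * π * (π * (-R ^ 2 + 14 * b * R - b ^ 2))) / 3 := by linarith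
  have h4 : 2 * π * 0.666 * (π * R ^ 2) + (2 * π * (π * (-R ^ 2 + 14 * a * R - a ^ 2))) / 3 +
      (2 * π * (π * (-R ^ 2 + 14 * b * R - b ^ 2))) / 3 =
      2 * π ^ 2 * ((0.666 - 2 / 3) * R ^ 2 + 14 / 3 * (a + b) * R - (a ^ 2 + b ^ 2) / 3) := by ring
  rw [h4] at h3
  have h5 : 0 ≤ (0.666 - 2 / 3) * R ^ 2 + 14 / 3 * (a + b) * R - (a ^ 2 + b ^ 2) / 3 := by
    by_contra hneg
    push Not at hneg
    have : 2 * π ^ 2 * ((0.666 - 2 / 3) * R ^ 2 + 14 / 3 * (a + b) * R - (a ^ 2 + b ^ 2) / 3) < 0 :=
      mul_neg_of_pos_of_neg (by positivity) hneg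
    linarith
  rw [hR] at h5
  have h6 : (0.666 - 2 / 3 : ℝ) * (8000 * (a + b)) ^ 2 + 14 / 3 * (a + b) * (8000 * (a + b)) -
      (a ^ 2 + b ^ 2) / 3 = -(16000 / 3) * (a + b) ^ 2 - (a ^ 2 + b ^ 2) / 3 := by ring
  rw [h6] at h5
  nlinarith [sq_nonneg (a + b), sq_nonneg a, sq_nonneg b, mul_pos ha hb]

end Pool.Agent.MeasTri
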