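import Pool.Agent.MeasTri.Density

set_option autoImplicit false

namespace Pool.Agent.MeasTri

open MeasureTheory Filter Topology Metric Set

/-- the area of a ball -/
lemma vol_ball_real (p : ℂ) {r : ℝ} (hr : 0 ≤ r) :
    volume.real (closedBall p r) = r ^ 2 * Real.pi := by
  unfold Measure.real
  rw [Complex.volume_closedBall, ENNReal.toReal_mul, ENNReal.toReal_pow, ENNReal.toReal_ofReal hr]
  simp

lemma dens_le_of_dist (A : Set ℂ) (k : ℕ) (p q : ℂ) :
    dens A k q ≤ dens A k p + ((rad k + dist q p) ^ 2 - rad k ^ 2) / rad k ^ 2 := by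
  have hr := rad_pos k
  have hd : 0 ≤ dist q p := dist_nonneg
  have hb : ballVol k = rad k ^ 2 * Real.pi := by
    rw [← vol_closedBall 0 k, vol_ball_real 0 hr.le]
  have hpi := Real.pi_pos
  have key : volume.real (A ∩ closedBall q (rad k)) ≤
      volume.real (A ∩ closedBall p (rad k)) +
        (volume.real (closedBall p (rad k + dist q p)) - volume.real (closedBall p (rad k))) := by
    have h1 : A ∩ closedBall q (rad k) ⊆
        (A ∩ closedBall p (rad k)) ∪ (closedBall p (rad k + dist q p) \ closedBall p (rad k)) := by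
      intro x hx
      by_cases hxp : x ∈ closedBall p (rad k)
      · exact Or.inl ⟨hx.1, hxp⟩
      · refine Or.inr ⟨?_, hxp⟩
        rw [mem_closedBall]
        have := hx.2
        rw [mem_closedBall] at this
        linarith [dist_triangle x q p]
    have h2 : volume.real (closedBall p (rad k + dist q p) \ closedBall p (rad k)) =
        volume.real (closedBall p (rad k + dist q p)) - volume.real (closedBall p (rad k)) :=
      measureReal_sdiff (closedBall_subset_closedBall (by linarith)) measurableSet_closedBall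
        (closedBall_fin _ _)
    rw [← h2]
    refine (measureReal_mono h1 ?_).trans (measureReal_union_le _ _)
    exact ((measure_union_le _ _).trans_lt (ENNReal.add_lt_top.2
      ⟨(inter_fin _ _ _).lt_top, (measure_mono sdiff_subset).trans_lt
        (closedBall_fin _ _).lt_top⟩)).ne
  rw [vol_ball_real p (by positivity), vol_ball_real p hr.le] at key
  unfold dens
  rw [hb, div_le_iff₀ (by positivity)]
  refine key.trans (le_of_eq ?_)
  field_simp

lemma continuous_dens (A : Set ℂ) (k : ℕ) : Continuous (dens A k) := by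
  have hr := rad_pos k
  rw [Metric.continuous_iff]
  intro p e he
  have hc : Tendsto (fun d : ℝ => ((rad k + d) ^ 2 - rad k ^ 2) / rad k ^ 2) (𝓝 0) (𝓝 0) := by
    have : Continuous (fun d : ℝ => ((rad k + d) ^ 2 - rad k ^ 2) / rad k ^ 2) := by fun_prop
    have h := this.tendsto 0
    simpa using h
  obtain ⟨d, hd, hd2⟩ := (Metric.tendsto_nhds_nhds.1 hc) e he
  refine ⟨d, hd, fun q hq => ?_⟩
  have h1 := dens_le_of_dist A k p q
  have h2 := dens_le_of_dist A k q p
  rw [dist_comm p q] at h2
  have h3 : ((rad k + dist q p) ^ 2 - rad k ^ 2) / rad k ^ 2 < e := by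
    have := hd2 (x := dist q p) (by rw [Real.dist_eq, sub_zero, abs_of_nonneg dist_nonneg]; exact hq)
    rw [Real.dist_eq, sub_zero] at this
    exact (le_abs_self _).trans_lt this
  rw [Real.dist_eq, abs_lt]
  constructor <;> linarith

/-- in a convex open set where both `A` and its complement have positive measure there are
arbitrarily small balls in which `A` has density exactly `1/2` -/
lemma exists_half {A : Set ℂ} (hA : NullMeasurableSet A volume) {U : Set ℂ} (hU : IsOpen U)
    (hconv : Convex ℝ U) (h1 : volume (A ∩ U) ≠ 0) (h2 : volume (Aᶜ ∩ U) ≠ 0) (K : ℕ) :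
    ∃ (x : ℂ) (k : ℕ), K ≤ k ∧ closedBall x (rad k) ⊆ U ∧ dens A k x = 1 / 2 := by
  obtain ⟨a, haU, ha⟩ := Measure.exists_mem_of_measure_ne_zero_of_ae h1
    (ae_mono (Measure.restrict_mono inter_subset_left le_rfl) (ae_full_restrict A))
  obtain ⟨b, hbU, hb⟩ := Measure.exists_mem_of_measure_ne_zero_of_ae h2
    (ae_mono (Measure.restrict_mono inter_subset_left le_rfl) (ae_full_restrict Aᶜ))
  rw [full_compl_iff hA] at hb
  have hseg : segment ℝ a b ⊆ U := hconv.segment_subset haU.2 hbU.2
  have hcomp : IsCompact (segment ℝ a b) := by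
    rw [segment_eq_image]
    exact isCompact_Icc.image (by fun_prop)
  obtain ⟨d, hd, hdU⟩ := hcomp.exists_cthickening_subset_open hU hseg
  have e1 : ∀ᶠ k in atTop, 1 / 2 < dens A k a :=
    ha.eventually (lt_mem_nhds (by norm_num))
  have e2 : ∀ᶠ k in atTop, dens A k b < 1 / 2 :=
    hb.eventually (gt_mem_nhds (by norm_num))
  have e3 : ∀ᶠ k in atTop, rad k < d := rad_tendsto.eventually (gt_mem_nhds hd)
  obtain ⟨k, hk1, hk2, hk3, hk4⟩ := (e1.and (e2.and (e3.and (eventually_ge_atTop K)))).exists
  have hivt := (convex_segment a b).isPreconnected.intermediate_value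
    (right_mem_segment ℝ a b) (left_mem_segment ℝ a b) (continuous_dens A k).continuousOn
  obtain ⟨x, hx, hx2⟩ := hivt ⟨hk2.le, hk1.le⟩
  refine ⟨x, k, hk4, ?_, hx2⟩
  exact ((closedBall_subset_closedBall hk3.le).trans (closedBall_subset_cthickening hx d)).trans hdU

lemma half_pos {A : Set ℂ} {x : ℂ} {k : ℕ} (h : 0 < dens A k x) :
    volume (A ∩ ball x (rad k)) ≠ 0 := by
  intro h0
  have hs : volume (sphere x (rad k)) = 0 := Measure.addHaar_sphere _ _ _
  have : volume (A ∩ closedBall x (rad k)) = 0 := by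
    refine measure_mono_null (t := (A ∩ ball x (rad k)) ∪ sphere x (rad k)) ?_ ?_
    · intro y hy
      rcases (mem_closedBall.1 hy.2).lt_or_eq with hlt | heq
      · exact Or.inl ⟨hy.1, hlt⟩
      · exact Or.inr heq
    · exact measure_union_null h0 hs
  unfold dens Measure.real at h
  rw [this] at h
  simp at h

/-- the wild points: neither `A` nor its complement has density one along dyadic radii -/
def IsWild (A : Set ℂ) (p : ℂ) : Prop := ¬ Full A p ∧ ¬ Full Aᶜ p

lemma exists_wild {A : Set ℂ} (hA : NullMeasurableSet A volume) (h1 : volume A ≠ 0)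
    (h2 : volume Aᶜ ≠ 0) : ∃ p, IsWild A p := by
  classical
  let S := {s : ℂ × ℕ // 1 ≤ s.2 ∧ dens A s.2 s.1 = 1 / 2}
  have step : ∀ s : S, ∃ t : S, s.1.2 < t.1.2 ∧
      closedBall t.1.1 (rad t.1.2) ⊆ closedBall s.1.1 (rad s.1.2) := by
    rintro ⟨⟨x, k⟩, hk1, hk⟩
    simp only at hk hk1
    have hc : dens Aᶜ k x = 1 / 2 := by
      have := dens_compl hA k x; linarith
    obtain ⟨y, j, hj, hsub, hy⟩ := exists_half hA isOpen_ball (convex_ball x (rad k))
      (half_pos (by rw [hk]; norm_num)) (half_pos (A := Aᶜ) (by rw [hc]; norm_num)) (k + 1)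
    exact ⟨⟨(y, j), by omega, hy⟩, by simp only; omega, hsub.trans ball_subset_closedBall⟩
  obtain ⟨x0, k0, hk0, -, hx0⟩ := exists_half hA isOpen_univ convex_univ (by rwa [inter_univ])
    (by rwa [inter_univ]) 1
  choose nxt hn1 hn2 using step
  let seq : ℕ → S := fun n => Nat.rec (⟨(x0, k0), hk0, hx0⟩ : S) (fun _ s => nxt s) n
  have hseq : ∀ n, seq (n + 1) = nxt (seq n) := fun n => rfl
  have hmono : ∀ n, n ≤ (seq n).1.2 := by
    intro n
    induction n with
    | zero => exact Nat.zero_le _
    | succ n ih =>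
      have := hn1 (seq n)
      rw [hseq]; omega
  obtain ⟨p, hp⟩ := IsCompact.nonempty_iInter_of_sequence_nonempty_isCompact_isClosed
    (fun n => closedBall (seq n).1.1 (rad (seq n).1.2))
    (fun n => by simp only [hseq]; exact hn2 (seq n))
    (fun n => nonempty_closedBall.2 (rad_pos _).le)
    (isCompact_closedBall _ _) (fun n => isClosed_closedBall)
  rw [mem_iInter] at hp
  -- the key density bound
  have bound : ∀ B : Set ℂ, (∀ n, dens B (seq n).1.2 (seq n).1.1 = 1 / 2) →
      ∀ n, ∃ m, n ≤ m ∧ 1 / 8 ≤ dens B m p := by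
    intro B hB n
    set x := (seq (n + 1)).1.1 with hx
    set k := (seq (n + 1)).1.2 with hk
    have hk' : n + 1 ≤ k := hmono (n + 1)
    obtain ⟨m, hm⟩ : ∃ m, k = m + 1 := ⟨k - 1, by omega⟩
    refine ⟨m, by omega, ?_⟩
    have hBk := hB (n + 1)
    rw [← hx, ← hk] at hBk
    have hpx := hp (n + 1)
    rw [← hx, ← hk] at hpx
    have hsub : closedBall x (rad k) ⊆ closedBall p (rad m) := by
      intro y hy
      rw [mem_closedBall] at hy hpx ⊢
      have : rad k = rad m / 2 := by rw [hm, rad_succ]
      linarith [dist_triangle y x p, dist_comm x p]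
    have hle : volume.real (B ∩ closedBall x (rad k)) ≤ volume.real (B ∩ closedBall p (rad m)) :=
      measureReal_mono (inter_subset_inter_right _ hsub) (inter_fin _ _ _)
    unfold dens at hBk ⊢
    rw [div_eq_iff (ballVol_pos k).ne'] at hBk
    rw [le_div_iff₀ (ballVol_pos m), ballVol_succ m, ← hm]
    linarith
  refine ⟨p, ?_, ?_⟩
  · intro hF
    have hc : ∀ n, dens Aᶜ (seq n).1.2 (seq n).1.1 = 1 / 2 := by
      intro n
      have := dens_compl hA (seq n).1.2 (seq n).1.1
      have := (seq n).2.2
      linarith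
    have ht : Tendsto (fun k => dens Aᶜ k p) atTop (𝓝 0) := by
      rw [← full_compl_iff hA.compl, compl_compl]; exact hF
    have hev : ∀ᶠ k in atTop, dens Aᶜ k p < 1 / 8 := ht.eventually (gt_mem_nhds (by norm_num))
    obtain ⟨N, hN⟩ := eventually_atTop.1 hev
    obtain ⟨m, hm, hm2⟩ := bound Aᶜ hc N
    linarith [hN m hm]
  · intro hF
    have ht := (full_compl_iff hA p).1 hF
    have hev : ∀ᶠ k in atTop, dens A k p < 1 / 8 := ht.eventually (gt_mem_nhds (by norm_num))
    obtain ⟨N, hN⟩ := eventually_atTop.1 hev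
    obtain ⟨m, hm, hm2⟩ := bound A (fun n => (seq n).2.2) N
    linarith [hN m hm]

end Pool.Agent.MeasTri
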